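import Pool.Agent.L7h56.AC.Poly

/-!
# The eight certified inequalities
-/

set_option autoImplicit false

namespace Pool.Agent.L7h56.AC

/-- certificate -/
def hA : List (ℤ × ℤ) :=
  [(231479, 0), (0, 0), (-509016, 146304), (464424, -60668)]

/-- certificate -/
def gA : List (ℤ × ℤ) :=
  [(705, 0), (0, 0), (334, -96), (444, -58)]

set_option maxRecDepth 100000 in
lemma check_hA : check hA [-200, 235, 343, 397, 452, 670] 1000 = true := by decide +kernel

set_option maxRecDepth 100000 in
lemma check_gA : check gA [-4143, 2930, 4698, 5582, 6024, 6466, 10003, 24150] 10000 = true := by decide +kernel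

/-- certificate -/
def hB : List (ℤ × ℤ) :=
  [(-21002, 0), (0, 0), (-109728, 263652), (0, 0), (245000, 66000), (0, 0), (-13200, -358160), (0, 0), (-92000, 145000)]

/-- certificate -/
def gB : List (ℤ × ℤ) :=
  [(463, 0), (0, 0), (72, -173), (0, 0), (-183, -106), (0, 0), (-407, 15), (0, 0), (60, 128)]

set_option maxRecDepth 100000 in
lemma check_hB : check hB [-200, 17, 126, 235, 670] 1000 = true := by decide +kernel

set_option maxRecDepth 100000 in
lemma check_gB : check gB [-4143, -607, -165, 277, 1161, 2930, 6466, 10003, 13539, 15307, 16191, 17076, 24150] 10000 = true := by decide +kernel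

/-- certificate -/
def hC : List (ℤ × ℤ) :=
  [(60080, 0), (0, 0), (-18288, 32004), (-174682, -23012), (157000, -42000), (0, 0), (-22880, 166320), (0, 0), (114000, -220000), (0, 0), (-168454, 76384), (0, 0), (58000, 24000)]

/-- certificate -/
def gC : List (ℤ × ℤ) :=
  [(368, 0), (0, 0), (12, -21), (167, 22), (-141, 81), (0, 0), (-189, -26), (0, 0), (118, 167), (0, 0), (247, -112), (0, 0), (-43, -43)]

set_option maxRecDepth 100000 in
lemma check_hC : check hC [-200, -92, 17, 126, 235, 452, 670] 1000 = true := by decide +kernel

set_option maxRecDepth 100000 in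
lemma check_gC : check gC [-4143, -2375, -1933, -1712, -1491, -607, 2930, 4698, 5582, 6466, 8234, 10003, 17076, 17960, 18844, 20613, 24150] 10000 = true := by decide +kernel

/-- certificate -/
def hD : List (ℤ × ℤ) :=
  [(176668, 0), (0, 0), (-236220, 236220), (-85772, -206062), (187000, -51000), (0, 0), (-29040, 110880), (0, 0), (-41000, -41000), (0, 0), (51150, -6820), (0, 0), (-21000, 9000)]

/-- certificate -/
def gD : List (ℤ × ℤ) :=
  [(530, 0), (0, 0), (155, -155), (82, 197), (-166, 98), (0, 0), (-126, -33), (0, 0), (0, -59), (0, 0), (75, -10), (0, 0), (-16, 16)]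

set_option maxRecDepth 100000 in
lemma check_hD : check hD [-200, 17, 126, 235, 343, 397, 452, 670] 1000 = true := by decide +kernel

set_option maxRecDepth 100000 in
lemma check_gD : check gD [-4143, 2930, 4698, 5582, 6466, 8234, 10003, 24150] 10000 = true := by decide +kernel

end Pool.Agent.L7h56.AC
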