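import Pool.Agent.L7h56.AC.Lim

/-!
# Elementary inequalities for the coordinates of the limit object
-/

set_option autoImplicit false

open Finset Filter Topology

namespace Pool.Agent.L7h56.AC

/-- the disc around a square root -/
lemma disc {w r e A B : ℝ} (hw : 0 < w) (he0 : 0 ≤ e)
    (h1 : e ≤ r * (2 * w - r)) (hW : e < w ^ 2) (hA : 0 ≤ A)
    (hz : (A ^ 2 - B ^ 2 - w ^ 2) ^ 2 + (2 * A * B) ^ 2 ≤ e ^ 2) :
    (A - w) ^ 2 + B ^ 2 ≤ r ^ 2 := by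
  by_contra hcon
  push Not at hcon
  set d2 : ℝ := (A - w) ^ 2 + B ^ 2 with hd2
  set s2 : ℝ := (A + w) ^ 2 + B ^ 2 with hs2
  have hprod : d2 * s2 ≤ e ^ 2 := by
    have : d2 * s2 = (A ^ 2 - B ^ 2 - w ^ 2) ^ 2 + (2 * A * B) ^ 2 := by rw [hd2, hs2]; ring
    rw [this]; exact hz
  have hd20 : 0 ≤ d2 := by rw [hd2]; positivity
  set d : ℝ := Real.sqrt d2 with hd
  have hdd : d ^ 2 = d2 := Real.sq_sqrt hd20
  have hd0 : 0 ≤ d := Real.sqrt_nonneg _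
  have hdr : r < d := by
    by_contra h
    push Not at h
    have : d ^ 2 ≤ r ^ 2 := pow_le_pow_left₀ hd0 h 2
    linarith
  have hs2d : d2 ≤ s2 := by
    have : s2 = d2 + 4 * A * w := by rw [hd2, hs2]; ring
    rw [this]
    have : 0 ≤ 4 * A * w := by positivity
    linarith
  rcases le_or_gt d w with hdw | hdw
  · have h2 : w - A ≤ d := by
      apply Real.le_sqrt_of_sq_le
      rw [hd2]
      nlinarith [sq_nonneg B]
    have h3 : (2 * w - d) ^ 2 ≤ s2 := by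
      have : s2 = d2 + 4 * A * w := by rw [hd2, hs2]; ring
      rw [this, ← hdd]
      nlinarith
    have h4 : e < d * (2 * w - d) := by nlinarith
    have h5 : e ^ 2 < (d * (2 * w - d)) ^ 2 := pow_lt_pow_left₀ h4 he0 two_ne_zero
    have h6 : (d * (2 * w - d)) ^ 2 ≤ d2 * s2 := by
      rw [mul_pow, hdd]
      exact mul_le_mul_of_nonneg_left h3 hd20
    linarith
  · have h2 : w ^ 2 ≤ d2 := by
      rw [← hdd]; exact pow_le_pow_left₀ hw.le hdw.le 2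
    have h3 : w ^ 2 * w ^ 2 ≤ d2 * s2 := mul_le_mul h2 (h2.trans hs2d) (by positivity) hd20
    have h4 : e ^ 2 < w ^ 2 * w ^ 2 := by nlinarith
    linarith

/-- shift of the centre of the disc -/
lemma shift_center {X Y W v ε δ : ℝ} (hε : 0 ≤ ε) (hXY : (X - W) ^ 2 + Y ^ 2 ≤ ε ^ 2)
    (hδ : |W - v| ≤ δ) : (X - v) ^ 2 + Y ^ 2 ≤ (ε + δ) ^ 2 := by
  have h1 : |X - W| ≤ ε := by
    apply abs_le_of_sq_le_sq _ hε
    nlinarith [sq_nonneg Y]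
  obtain ⟨h2, h3⟩ := abs_le.mp h1
  obtain ⟨h4, h5⟩ := abs_le.mp hδ
  have hδ0 : 0 ≤ δ := (abs_nonneg _).trans hδ
  have h6 : (X - W) * (W - v) ≤ ε * δ := by
    calc (X - W) * (W - v) ≤ |(X - W) * (W - v)| := le_abs_self _
      _ = |X - W| * |W - v| := abs_mul _ _
      _ ≤ ε * δ := mul_le_mul h1 hδ (abs_nonneg _) hε
  have h7 : (W - v) ^ 2 ≤ δ ^ 2 := by
    rw [← sq_abs]; exact pow_le_pow_left₀ (abs_nonneg _) hδ 2
  nlinarith

/-- the quadratic form of a frequency with a disc -/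
lemma qf {P Q μ X Y R : ℝ} (hμ : 0 ≤ μ) (h : P ^ 2 + Q ^ 2 ≤ μ ^ 2) (hR : X ^ 2 + Y ^ 2 ≤ R) :
    P * (X ^ 2 - Y ^ 2) + Q * (2 * X * Y) ≤ μ * R := by
  have h1 : (P * (X ^ 2 - Y ^ 2) + Q * (2 * X * Y)) ^ 2 ≤ (μ * (X ^ 2 + Y ^ 2)) ^ 2 := by
    have e1 : (P * (X ^ 2 - Y ^ 2) + Q * (2 * X * Y)) ^ 2 ≤
        (P ^ 2 + Q ^ 2) * ((X ^ 2 - Y ^ 2) ^ 2 + (2 * X * Y) ^ 2) := by
      nlinarith [sq_nonneg (P * (2 * X * Y) - Q * (X ^ 2 - Y ^ 2))]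
    have e2 : (X ^ 2 - Y ^ 2) ^ 2 + (2 * X * Y) ^ 2 = (X ^ 2 + Y ^ 2) ^ 2 := by ring
    rw [e2] at e1
    calc _ ≤ (P ^ 2 + Q ^ 2) * (X ^ 2 + Y ^ 2) ^ 2 := e1
      _ ≤ μ ^ 2 * (X ^ 2 + Y ^ 2) ^ 2 := mul_le_mul_of_nonneg_right h (sq_nonneg _)
      _ = _ := by ring
  have h2 : 0 ≤ μ * (X ^ 2 + Y ^ 2) := by positivity
  have h3 := abs_le_of_sq_le_sq h1 h2
  have h4 := (le_abs_self _).trans h3
  have h5 : μ * (X ^ 2 + Y ^ 2) ≤ μ * R := mul_le_mul_of_nonneg_left hR hμ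
  linarith

/-- the quadratic form of a frequency near zero -/
lemma zb {P Q p q μ c0 ε A B : ℝ} (hm : 0 < μ - P) (hD : 0 < μ ^ 2 - P ^ 2 - Q ^ 2) (hμ : 0 ≤ μ)
    (h3 : p ^ 2 * (μ + P) + 2 * p * q * Q + q ^ 2 * (μ - P) ≤ 4 * c0 * (μ ^ 2 - P ^ 2 - Q ^ 2))
    (hR : A ^ 2 + B ^ 2 ≤ ε) :
    p * A + q * B + P * (A ^ 2 - B ^ 2) + Q * (2 * A * B) ≤ μ * ε + c0 := by
  set m : ℝ := μ - P with hmdef
  set D : ℝ := μ ^ 2 - P ^ 2 - Q ^ 2 with hDdef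
  set E : ℝ := μ * (A ^ 2 + B ^ 2) - P * (A ^ 2 - B ^ 2) - Q * (2 * A * B) - p * A - q * B + c0
    with hE
  have key : 4 * m * D * E = D * (2 * m * A - 2 * Q * B - p) ^ 2 +
      (2 * D * B - (m * q + Q * p)) ^ 2 +
      m * (4 * c0 * D - (p ^ 2 * (μ + P) + 2 * p * q * Q + q ^ 2 * (μ - P))) := by
    rw [hE, hDdef, hmdef]; ring
  have h4 : 0 ≤ 4 * m * D * E := by
    rw [key]
    have : 0 ≤ 4 * c0 * D - (p ^ 2 * (μ + P) + 2 * p * q * Q + q ^ 2 * (μ - P)) := by linarith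
    positivity
  have h5 : 0 ≤ E := by
    have : 0 < 4 * m * D := by positivity
    exact nonneg_of_mul_nonneg_right h4 this
  have h6 : μ * (A ^ 2 + B ^ 2) ≤ μ * ε := mul_le_mul_of_nonneg_left hR hμ
  linarith

/-- a vector whose integral multiples are bounded by `ε` -/
lemma norm_le_of_int {X Y ε : ℝ} (hε : 0 ≤ ε)
    (h : ∀ p q N : ℤ, 0 ≤ N → p ^ 2 + q ^ 2 ≤ N ^ 2 → 0 ≤ ε * N + p * X + q * Y) :
    X ^ 2 + Y ^ 2 ≤ ε ^ 2 := by
  set r : ℝ := Real.sqrt (X ^ 2 + Y ^ 2) with hr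
  have hr0 : 0 ≤ r := Real.sqrt_nonneg _
  have hrr : r ^ 2 = X ^ 2 + Y ^ 2 := Real.sq_sqrt (by positivity)
  have hX : |X| ≤ r := by rw [hr]; exact Real.abs_le_sqrt (by nlinarith [sq_nonneg Y])
  have hY : |Y| ≤ r := by rw [hr]; exact Real.abs_le_sqrt (by nlinarith [sq_nonneg X])
  suffices hre : r ≤ ε by
    rw [← hrr]; exact pow_le_pow_left₀ hr0 hre 2
  by_contra hcon
  push Not at hcon
  obtain ⟨t, ht⟩ := exists_nat_gt ((3 * ε + 2 * r) / (r * (r - ε)))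
  have hrpos : 0 < r := lt_of_le_of_lt hε hcon
  have hpos : 0 < r * (r - ε) := mul_pos hrpos (by linarith)
  rw [div_lt_iff₀ hpos] at ht
  set p : ℤ := -round ((t : ℝ) * X) with hp
  set q : ℤ := -round ((t : ℝ) * Y) with hq
  set N : ℤ := ⌈(t : ℝ) * r⌉ + 2 with hN
  have ht0 : (0 : ℝ) ≤ t := Nat.cast_nonneg _
  have hN1 : (t : ℝ) * r + 2 ≤ N := by rw [hN]; push_cast; linarith [Int.le_ceil ((t : ℝ) * r)]
  have hN2 : (N : ℝ) ≤ t * r + 3 := by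
    rw [hN]; push_cast; linarith [Int.ceil_lt_add_one ((t : ℝ) * r)]
  have hN0 : 0 ≤ N := by
    have : (0 : ℝ) ≤ N := by have : 0 ≤ (t : ℝ) * r := by positivity
                             linarith
    exact_mod_cast this
  have hp1 : |(t : ℝ) * X + p| ≤ 1 / 2 := by
    have h1 := abs_sub_round ((t : ℝ) * X)
    rw [hp]; push_cast
    rwa [← sub_eq_add_neg]
  have hq1 : |(t : ℝ) * Y + q| ≤ 1 / 2 := by
    have h1 := abs_sub_round ((t : ℝ) * Y)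
    rw [hq]; push_cast
    rwa [← sub_eq_add_neg]
  have hpq : p ^ 2 + q ^ 2 ≤ N ^ 2 := by
    have h1 : (p : ℝ) ^ 2 + (q : ℝ) ^ 2 ≤ (N : ℝ) ^ 2 := by
      obtain ⟨a1, a2⟩ := abs_le.mp hp1
      obtain ⟨b1, b2⟩ := abs_le.mp hq1
      set u : ℝ := (t : ℝ) * X + p with hu
      set v : ℝ := (t : ℝ) * Y + q with hv
      have e1 : (p : ℝ) = u - t * X := by rw [hu]; ring
      have e2 : (q : ℝ) = v - t * Y := by rw [hv]; ring
      have e3 : (p : ℝ) ^ 2 + (q : ℝ) ^ 2 = (t * r) ^ 2 + u ^ 2 + v ^ 2 -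
          2 * t * (u * X + v * Y) := by
        rw [e1, e2, mul_pow, hrr]; ring
      have e4 : -(u * X + v * Y) ≤ r := by
        have f1 : -(u * X) ≤ 1 / 2 * r := by
          calc -(u * X) ≤ |u * X| := neg_le_abs _
            _ = |u| * |X| := abs_mul _ _
            _ ≤ 1 / 2 * r := mul_le_mul (abs_le.mpr ⟨a1, a2⟩) hX (abs_nonneg _) (by norm_num)
        have f2 : -(v * Y) ≤ 1 / 2 * r := by
          calc -(v * Y) ≤ |v * Y| := neg_le_abs _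
            _ = |v| * |Y| := abs_mul _ _
            _ ≤ 1 / 2 * r := mul_le_mul (abs_le.mpr ⟨b1, b2⟩) hY (abs_nonneg _) (by norm_num)
        linarith
      have e5 : -(2 * t * (u * X + v * Y)) ≤ 2 * t * r := by nlinarith
      have e6 : u ^ 2 + v ^ 2 ≤ 1 := by nlinarith
      have e7 : (t * r + 2) ^ 2 ≤ (N : ℝ) ^ 2 :=
        pow_le_pow_left₀ (by positivity) hN1 2
      have e8 : 0 ≤ (t : ℝ) * r := by positivity
      nlinarith
    exact_mod_cast h1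
  have h1 := h p q N hN0 hpq
  have h2 : (p : ℝ) * X + q * Y ≤ -(t * r ^ 2) + r := by
    have f1 : ((t : ℝ) * X + p) * X ≤ 1 / 2 * r := by
      calc ((t : ℝ) * X + p) * X ≤ |((t : ℝ) * X + p) * X| := le_abs_self _
        _ = |(t : ℝ) * X + p| * |X| := abs_mul _ _
        _ ≤ 1 / 2 * r := mul_le_mul hp1 hX (abs_nonneg _) (by norm_num)
    have f2 : ((t : ℝ) * Y + q) * Y ≤ 1 / 2 * r := by
      calc ((t : ℝ) * Y + q) * Y ≤ |((t : ℝ) * Y + q) * Y| := le_abs_self _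
        _ = |(t : ℝ) * Y + q| * |Y| := abs_mul _ _
        _ ≤ 1 / 2 * r := mul_le_mul hq1 hY (abs_nonneg _) (by norm_num)
    rw [hrr]
    nlinarith
  have h3 : ε * N ≤ ε * (t * r + 3) := mul_le_mul_of_nonneg_left hN2 hε
  nlinarith

end Pool.Agent.L7h56.AC
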