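import Pool.Agent.L7h56.AC.Lim

/-!
# Existence of the limit object
-/

set_option autoImplicit false

open Finset Filter Topology

namespace Pool.Agent.L7h56.AC

open Pool.Agent.H394R2.Ones Pool.Agent.H820R3.DG

lemma integral_nonneg' {G : ℝ → ℝ} (hG0 : ∀ s ∈ Set.Icc (0 : ℝ) 2, 0 ≤ G s) :
    0 ≤ ∫ s in (0 : ℝ)..1, G s := by
  apply intervalIntegral.integral_nonneg (by norm_num)
  intro s hs
  exact hG0 s ⟨hs.1, hs.2.trans (by norm_num)⟩

theorem lim_exists {b : ℕ} {y : ℝ} (hb : 2 ≤ b) (hy0 : 0 < y) (hy1 : y < 1) (hirr : Irrational y)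
    {A B C : ℤ} (hA : 0 < A) (hq : (A : ℝ) * y ^ 2 + B * y + C = 0) (lam : ℝ)
    (hfreq : ∃ᶠ n : ℕ in atTop,
      lam * (K b y n : ℝ) ^ 2 ≤ ((b : ℝ) - 1) * (((Int.gcd b (2 * A) : ℕ) : ℝ) / A) * n) :
    ∃ a : ℕ → ℂ, LimObj lam a := by
  have hbR : (2 : ℝ) ≤ b := by exact_mod_cast hb
  have hAR : (1 : ℝ) ≤ A := by exact_mod_cast hA
  have halg : IsAlgebraic ℚ y := by
    refine ⟨Polynomial.C (A : ℚ) * Polynomial.X ^ 2 + Polynomial.C (B : ℚ) * Polynomial.X +
      Polynomial.C (C : ℚ), ?_, ?_⟩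
    · intro h
      have h1 := congrArg (fun p => Polynomial.coeff p 2) h
      simp only [Polynomial.coeff_add, Polynomial.coeff_C_mul, Polynomial.coeff_X_pow,
        Polynomial.coeff_X, Polynomial.coeff_C, Polynomial.coeff_zero] at h1
      norm_num at h1
      omega
    · simp only [map_add, map_mul, map_pow, Polynomial.aeval_X, Polynomial.aeval_C]
      simpa using hq
  set g : ℕ := Int.gcd b (2 * A) with hg
  set τ : ℝ := (g : ℝ) / A with hτ
  have hτ0 : 0 ≤ τ := by positivity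
  have hg0 : 0 < g := by
    rw [hg]
    apply Int.gcd_pos_of_ne_zero_right
    omega
  -- lower bound for `K`
  set κ : ℝ := 7 * Real.sqrt (((b : ℝ) - 1) * g / (48 * A)) with hκ
  have hκ0 : 0 < κ := by
    rw [hκ]
    have h1 : (0 : ℝ) < g := by exact_mod_cast hg0
    have h2 : (0 : ℝ) < (b : ℝ) - 1 := by linarith
    positivity
  obtain ⟨n1, hn1⟩ := quad_main hb hy0 hy1 hirr hA hq (κ / 2) (by positivity)
  have hKlow : ∀ n : ℕ, n1 ≤ n → κ / 2 * Real.sqrt n ≤ K b y n := by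
    intro n hn
    have := hn1 n hn
    rw [← hκ] at this
    calc κ / 2 * Real.sqrt n = (κ - κ / 2) * Real.sqrt n := by ring
      _ ≤ _ := this
  have hKtop : Tendsto (fun n : ℕ => (K b y n : ℝ)) atTop atTop := by
    have h1 : Tendsto (fun n : ℕ => κ / 2 * Real.sqrt n) atTop atTop :=
      (Real.tendsto_sqrt_atTop.comp tendsto_natCast_atTop_atTop).const_mul_atTop (by positivity)
    refine tendsto_atTop_mono' _ ?_ h1
    filter_upwards [eventually_ge_atTop n1] with n hn using hKlow n hn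
  set c5 : ℝ := (2 / κ) ^ 2 with hc5
  have hc50 : 0 ≤ c5 := sq_nonneg _
  have hnK : ∀ n : ℕ, n1 ≤ n → (n : ℝ) ≤ c5 * (K b y n : ℝ) ^ 2 := by
    intro n hn
    have h1 := hKlow n hn
    have h2 : Real.sqrt n ≤ 2 / κ * K b y n := by
      rw [div_mul_eq_mul_div, le_div_iff₀ hκ0]
      nlinarith
    have h3 : (n : ℝ) = Real.sqrt n ^ 2 := (Real.sq_sqrt (Nat.cast_nonneg n)).symm
    rw [h3, hc5, ← mul_pow]
    exact pow_le_pow_left₀ (Real.sqrt_nonneg _) h2 2
  -- the subsequence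
  obtain ⟨φ, hφ, hφP⟩ := extraction_of_frequently_atTop hfreq
  have hcomp : IsCompact (Set.pi Set.univ fun _ : ℕ => Metric.closedBall (0 : ℂ) 1) :=
    isCompact_univ_pi fun _ => isCompact_closedBall _ _
  obtain ⟨a, -, ψ, hψ, hlim⟩ := hcomp.tendsto_subseq (x := fun j => aN b y (φ j)) (by
    intro j
    rw [Set.mem_univ_pi]
    intro k
    rw [Metric.mem_closedBall, dist_zero_right]
    exact aN_norm b y (φ j) k)
  set u : ℕ → ℕ := fun j => φ (ψ j) with hu
  have hutop : Tendsto u atTop atTop := hφ.tendsto_atTop.comp hψ.tendsto_atTop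
  have hlim' : Tendsto (fun j => aN b y (u j)) atTop (𝓝 a) := hlim
  have huP : ∀ j, lam * (K b y (u j) : ℝ) ^ 2 ≤ ((b : ℝ) - 1) * τ * (u j) := fun j => hφP (ψ j)
  have hKu : Tendsto (fun j => (K b y (u j) : ℝ)) atTop atTop := hKtop.comp hutop
  refine ⟨a, ?_, ?_, ?_⟩
  · -- `a 0 = 1`
    have h1 : Tendsto (fun j => aN b y (u j) 0) atTop (𝓝 (a 0)) :=
      (tendsto_pi_nhds.mp hlim') 0
    have h2 : Tendsto (fun j => aN b y (u j) 0) atTop (𝓝 1) := by
      apply tendsto_const_nhds.congr'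
      filter_upwards [hKu.eventually_gt_atTop 0] with j hj
      exact (aN_zero b y (u j) (by exact_mod_cast hj)).symm
    exact tendsto_nhds_unique h1 h2
  · -- linear inequalities
    intro l hl
    have h1 : Tendsto (fun j => lin 0 l (aN b y (u j))) atTop (𝓝 (lin 0 l a)) :=
      ((lin_cont l 0).tendsto a).comp hlim'
    refine ge_of_tendsto h1 ?_
    filter_upwards [hutop.eventually_gt_atTop 0] with j hj
    rw [lin_aN]
    refine sum_nonneg fun i hi => mul_nonneg (by positivity) (hl _ ⟨by positivity, ?_⟩)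
    have h2 : (0 : ℝ) < u j := by exact_mod_cast hj
    rw [div_le_one h2]
    have := mem_range.mp hi
    exact_mod_cast (by omega : i ≤ u j)
  · -- quadratic inequalities
    intro l hl
    set G : ℝ → ℝ := fun s => tp 0 l (ps s) with hG
    have hGc : Continuous G := (tp_cont l 0).comp (by unfold ps; fun_prop)
    obtain ⟨M, hM0, hM⟩ := tp_bound l 0
    obtain ⟨L', hL0', hL'⟩ := tp_lip l 0
    set L : ℝ := L' * (Real.pi / 2) with hL
    have hpi := Real.pi_pos
    have hL0 : 0 ≤ L := by positivity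
    have hGM : ∀ s ∈ Set.Icc (0 : ℝ) 2, G s ≤ M := fun s _ => (le_abs_self _).trans (hM _)
    have hGL : ∀ s t : ℝ, s ∈ Set.Icc (0 : ℝ) 1 → t ∈ Set.Icc (0 : ℝ) 1 →
        |G s - G t| ≤ L * |s - t| := by
      intro s t _ _
      refine (hL' (ps s) (ps t)).trans (le_of_eq ?_)
      have : ps s - ps t = Real.pi / 2 * (s - t) := by unfold ps; ring
      rw [this, abs_mul, abs_of_pos (by positivity : (0 : ℝ) < Real.pi / 2), hL]
      ring
    have hI0 : 0 ≤ ∫ s in (0 : ℝ)..1, G s := integral_nonneg' hl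
    have hsq : Tendsto (fun j => lin 0 l (fun k => aN b y (u j) k ^ 2)) atTop
        (𝓝 (lin 0 l (fun k => a k ^ 2))) := by
      have h1 : Continuous fun a : ℕ → ℂ => lin 0 l (fun k => a k ^ 2) :=
        (lin_cont l 0).comp (continuous_pi fun k => (continuous_apply k).pow 2)
      exact (h1.tendsto a).comp hlim'
    refine le_of_forall_pos_le_add fun η hη => ?_
    -- choose `δ`
    set E5 : ℝ := ((b : ℝ) - 1) * M * τ * c5 with hE5
    have hE50 : 0 ≤ E5 := by
      have : 0 ≤ (b : ℝ) - 1 := by linarith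
      positivity
    set δ : ℝ := min (1 / 4) (η / (2 * (E5 + 1))) with hδ
    have hδ0 : 0 < δ := by positivity
    have hδ1 : δ ≤ 1 / 4 := min_le_left _ _
    have hδ2 : E5 * δ ≤ η / 2 := by
      have h1 : δ ≤ η / (2 * (E5 + 1)) := min_le_right _ _
      rw [le_div_iff₀ (by positivity)] at h1
      nlinarith
    obtain ⟨C2, hC20, hC2⟩ := dd_sum hb hy0 hy1 hirr halg hτ0 (abs_nonneg (B : ℝ)) δ hδ0 hδ1
    set C6 : ℝ := ((b : ℝ) - 1) * (M * C2) + (b * L + M) with hC6
    have hC60 : 0 ≤ C6 := by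
      have : 0 ≤ (b : ℝ) - 1 := by linarith
      positivity
    set C7 : ℝ := ((b : ℝ) - 1) * (τ * L) with hC7
    have herr : Tendsto (fun j => (C7 + C6 * ((K b y (u j) : ℝ) + 1)) / (K b y (u j) : ℝ) ^ 2)
        atTop (𝓝 0) := by
      have h1 : Tendsto (fun t : ℝ => (C7 + C6 * (t + 1)) / t ^ 2) atTop (𝓝 0) := by
        have e : ∀ t : ℝ, (C7 + C6 * (t + 1)) / t ^ 2 = (C7 + C6) * (t⁻¹) ^ 2 + C6 * (t / t ^ 2) := by
          intro t; ring
        have h2 : Tendsto (fun t : ℝ => t⁻¹) atTop (𝓝 0) := tendsto_inv_atTop_zero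
        have h3 : Tendsto (fun t : ℝ => (C7 + C6) * (t⁻¹) ^ 2 + C6 * t⁻¹) atTop
            (𝓝 ((C7 + C6) * 0 ^ 2 + C6 * 0)) := ((h2.pow 2).const_mul _).add (h2.const_mul _)
        simp only [ne_eq, OfNat.ofNat_ne_zero, not_false_eq_true, zero_pow, mul_zero, add_zero] at h3
        refine h3.congr' ?_
        filter_upwards [eventually_gt_atTop (0 : ℝ)] with t ht
        rw [e]
        congr 2
        field_simp
      exact h1.comp hKu
    have hev : ∀ᶠ j in atTop, lam * (∫ s in (0 : ℝ)..1, G s) ≤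
        lin 0 l (fun k => aN b y (u j) k ^ 2) + η := by
      filter_upwards [hutop.eventually_ge_atTop (max 1 n1), hKu.eventually_gt_atTop 0,
        herr.eventually (gt_mem_nhds (half_pos hη))] with j hj1 hj2 hj3
      have hu1 : 0 < u j := lt_of_lt_of_le one_pos ((le_max_left _ _).trans hj1)
      have hun1 : n1 ≤ u j := (le_max_right _ _).trans hj1
      have h1 := pair_lower hb hy0 hy1 hirr (fun m => dd_nonneg hy0 hτ0 (abs_nonneg (B : ℝ)) m)
        (fun m => T_lower' hb hy0 hy1 hirr hA hq m) (hC2 (u j)) hu1 hGc hl hGM hGL hτ0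
      have h2 : lam * (K b y (u j) : ℝ) ^ 2 * (∫ s in (0 : ℝ)..1, G s) ≤
          ((b : ℝ) - 1) * τ * (u j) * (∫ s in (0 : ℝ)..1, G s) :=
        mul_le_mul_of_nonneg_right (huP j) hI0
      have h3 : ((b : ℝ) - 1) * (M * (τ * δ * (u j))) ≤ E5 * δ * (K b y (u j) : ℝ) ^ 2 := by
        have h4 := hnK (u j) hun1
        have h5 : 0 ≤ ((b : ℝ) - 1) * M * τ * δ := by
          have : 0 ≤ (b : ℝ) - 1 := by linarith
          positivity
        calc ((b : ℝ) - 1) * (M * (τ * δ * (u j))) = ((b : ℝ) - 1) * M * τ * δ * (u j) := by ring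
          _ ≤ ((b : ℝ) - 1) * M * τ * δ * (c5 * (K b y (u j) : ℝ) ^ 2) :=
            mul_le_mul_of_nonneg_left h4 h5
          _ = _ := by rw [hE5]; ring
      have hK2 : 0 < (K b y (u j) : ℝ) ^ 2 := by positivity
      rw [lin_aN_sq]
      have h6 : (lam * (∫ s in (0 : ℝ)..1, G s)) * (K b y (u j) : ℝ) ^ 2 ≤
          PS b y (u j) G + (C7 + C6 * ((K b y (u j) : ℝ) + 1)) + E5 * δ * (K b y (u j) : ℝ) ^ 2 := by
        have e1 : ((b : ℝ) - 1) * (τ * L + M * (C2 * (K b y (u j) + 1) + τ * δ * (u j))) +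
            (b * L + M) * (K b y (u j) + 1) =
            (C7 + C6 * ((K b y (u j) : ℝ) + 1)) + ((b : ℝ) - 1) * (M * (τ * δ * (u j))) := by
          rw [hC7, hC6]; ring
        linarith
      have h7 : (lam * (∫ s in (0 : ℝ)..1, G s)) ≤
          (PS b y (u j) G + (C7 + C6 * ((K b y (u j) : ℝ) + 1)) +
            E5 * δ * (K b y (u j) : ℝ) ^ 2) / (K b y (u j) : ℝ) ^ 2 := by
        rw [le_div_iff₀ hK2]; exact h6
      have h8 : (PS b y (u j) G + (C7 + C6 * ((K b y (u j) : ℝ) + 1)) +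
            E5 * δ * (K b y (u j) : ℝ) ^ 2) / (K b y (u j) : ℝ) ^ 2 =
          PS b y (u j) G / (K b y (u j) : ℝ) ^ 2 +
            (C7 + C6 * ((K b y (u j) : ℝ) + 1)) / (K b y (u j) : ℝ) ^ 2 + E5 * δ := by
        field_simp
      rw [h8] at h7
      linarith
    have h9 : Tendsto (fun j => lin 0 l (fun k => aN b y (u j) k ^ 2) + η) atTop
        (𝓝 (lin 0 l (fun k => a k ^ 2) + η)) := hsq.add_const η
    exact ge_of_tendsto h9 hev

end Pool.Agent.L7h56.AC
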