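import Pool.Agent.H820R3.DG.Quad

/-!
# Sums over pairs of digits against a nonnegative Lipschitz function
-/

set_option autoImplicit false
set_option linter.unusedSectionVars false

open Finset

namespace Pool.Agent.L7h56.AC

open Pool.Agent.H394R2.Ones

/-- a Lipschitz function on `[0, 1]` and its Riemann sums -/
lemma riemann {G : ℝ → ℝ} (hG : Continuous G) {L : ℝ}
    (hL : ∀ s t : ℝ, s ∈ Set.Icc (0 : ℝ) 1 → t ∈ Set.Icc (0 : ℝ) 1 → |G s - G t| ≤ L * |s - t|)
    {n : ℕ} (hn : 0 < n) :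
    (n : ℝ) * (∫ s in (0 : ℝ)..1, G s) - L ≤ ∑ m ∈ range n, G ((m : ℝ) / n) := by
  have hn0 : (0 : ℝ) < n := by exact_mod_cast hn
  have hL0 : 0 ≤ L := by
    have h1 := hL 0 1 (by simp) (by simp)
    have h2 := abs_nonneg (G 0 - G 1)
    norm_num at h1
    linarith
  have hsum : ∑ m ∈ range n, ∫ s in ((m : ℝ) / n)..(((m + 1 : ℕ) : ℝ) / n), G s =
      ∫ s in (((0 : ℕ) : ℝ) / n)..((n : ℝ) / n), G s :=
    intervalIntegral.sum_integral_adjacent_intervals (a := fun m : ℕ => (m : ℝ) / n)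
      (fun k _ => hG.intervalIntegrable _ _)
  rw [div_self hn0.ne'] at hsum
  simp only [Nat.cast_zero, zero_div] at hsum
  rw [← hsum, mul_sum]
  have hcell : ∀ m ∈ range n, (n : ℝ) * (∫ s in ((m : ℝ) / n)..(((m + 1 : ℕ) : ℝ) / n), G s) ≤
      G ((m : ℝ) / n) + L / n := by
    intro m hm
    have hm' : m + 1 ≤ n := by have := mem_range.mp hm; omega
    have hmR : (m : ℝ) + 1 ≤ n := by exact_mod_cast hm'
    have hle : (m : ℝ) / n ≤ ((m + 1 : ℕ) : ℝ) / n := by
      apply div_le_div_of_nonneg_right _ hn0.le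
      push_cast; linarith
    have h1 : (∫ s in ((m : ℝ) / n)..(((m + 1 : ℕ) : ℝ) / n), G s) ≤
        ∫ _ in ((m : ℝ) / n)..(((m + 1 : ℕ) : ℝ) / n), (G ((m : ℝ) / n) + L / n) := by
      apply intervalIntegral.integral_mono_on hle (hG.intervalIntegrable _ _)
        (continuous_const.intervalIntegrable _ _)
      intro s hs
      obtain ⟨hs1, hs2⟩ := hs
      have hm0 : (0 : ℝ) ≤ (m : ℝ) / n := by positivity
      have hm1 : ((m + 1 : ℕ) : ℝ) / n ≤ 1 := by
        rw [div_le_one hn0]; push_cast; exact hmR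
      have h2 := hL s ((m : ℝ) / n) ⟨by linarith, by linarith⟩ ⟨hm0, by linarith⟩
      have h3 : |s - (m : ℝ) / n| ≤ 1 / n := by
        rw [abs_of_nonneg (by linarith)]
        have : ((m + 1 : ℕ) : ℝ) / n = (m : ℝ) / n + 1 / n := by push_cast; ring
        linarith
      have h4 := (abs_le.mp h2).2
      have h5 : L * |s - (m : ℝ) / n| ≤ L / n := by
        calc L * |s - (m : ℝ) / n| ≤ L * (1 / n) := mul_le_mul_of_nonneg_left h3 hL0
          _ = L / n := by ring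
      linarith
    rw [intervalIntegral.integral_const, smul_eq_mul] at h1
    have h6 : ((m + 1 : ℕ) : ℝ) / n - (m : ℝ) / n = 1 / n := by push_cast; ring
    rw [h6] at h1
    have h7 := mul_le_mul_of_nonneg_left h1 hn0.le
    calc _ ≤ (n : ℝ) * (1 / n * (G ((m : ℝ) / n) + L / n)) := h7
      _ = _ := by field_simp
  have h8 := sum_le_sum hcell
  rw [sum_add_distrib, sum_const, card_range, nsmul_eq_mul] at h8
  have h9 : (n : ℝ) * (L / n) = L := by field_simp
  linarith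

section
variable {b : ℕ} {y : ℝ} (hb : 2 ≤ b) (hy0 : 0 < y) (hy1 : y < 1) (hirr : Irrational y)
  {τ D : ℝ} {n : ℕ} {d : ℕ → ℝ} (hd0 : ∀ m, 0 ≤ d m) (hd : ∀ m, τ - d m ≤ T b y m)
  (hD : ∑ m ∈ range n, d m ≤ D)

/-- the sum of `G ((i + j) / n)` over the pairs of digits -/
noncomputable def PS (b : ℕ) (y : ℝ) (n : ℕ) (G : ℝ → ℝ) : ℝ :=
  ∑ p ∈ range (n + 1) ×ˢ range (n + 1),
    (x b y p.1 : ℝ) * (x b y p.2 : ℝ) * G (((p.1 + p.2 : ℕ) : ℝ) / n)

include hb hy0 hy1 hirr hd0 hd hD in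
/-- main lower bound -/
theorem pair_lower (hn : 0 < n) {G : ℝ → ℝ} (hG : Continuous G) {L M : ℝ}
    (hG0 : ∀ s ∈ Set.Icc (0 : ℝ) 2, 0 ≤ G s) (hGM : ∀ s ∈ Set.Icc (0 : ℝ) 2, G s ≤ M)
    (hL : ∀ s t : ℝ, s ∈ Set.Icc (0 : ℝ) 1 → t ∈ Set.Icc (0 : ℝ) 1 → |G s - G t| ≤ L * |s - t|)
    (hτ : 0 ≤ τ) :
    ((b : ℝ) - 1) * τ * (n * ∫ s in (0 : ℝ)..1, G s) ≤
      PS b y n G + ((b : ℝ) - 1) * (τ * L + M * D) + (b * L + M) * (K b y n + 1) := by
  have hbR : (2 : ℝ) ≤ b := by exact_mod_cast hb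
  have hn0 : (0 : ℝ) < n := by exact_mod_cast hn
  have hL0 : 0 ≤ L := by
    have h1 := hL 0 1 (by simp) (by simp)
    have h2 := abs_nonneg (G 0 - G 1)
    norm_num at h1
    linarith
  have hM0 : 0 ≤ M := (hG0 0 (by simp)).trans (hGM 0 (by simp))
  have hK : (0 : ℝ) ≤ K b y n := Nat.cast_nonneg _
  -- reduce to sums at most n
  have h1 : ∑ m ∈ range (n + 1), (r b y m : ℝ) * G ((m : ℝ) / n) ≤ PS b y n G := by
    unfold PS
    rw [pair_sum n (fun i j => (x b y i : ℝ) * (x b y j : ℝ) * G (((i + j : ℕ) : ℝ) / n))]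
    have e1 : ∑ m ∈ range (n + 1), ∑ p ∈ antidiagonal m,
        (x b y p.1 : ℝ) * (x b y p.2 : ℝ) * G (((p.1 + p.2 : ℕ) : ℝ) / n) =
        ∑ m ∈ range (n + 1), (r b y m : ℝ) * G ((m : ℝ) / n) := by
      refine sum_congr rfl fun m _ => ?_
      unfold r
      push_cast
      rw [sum_mul]
      refine sum_congr rfl fun p hp => ?_
      rw [HasAntidiagonal.mem_antidiagonal] at hp
      rw [← hp]
      push_cast
      rfl
    rw [e1]
    have e2 : 0 ≤ ∑ p ∈ (range (n + 1) ×ˢ range (n + 1)).filter (fun p => ¬ p.1 + p.2 ≤ n),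
        (x b y p.1 : ℝ) * (x b y p.2 : ℝ) * G (((p.1 + p.2 : ℕ) : ℝ) / n) := by
      refine sum_nonneg fun p hp => ?_
      simp only [mem_filter, mem_product, mem_range] at hp
      have hs : G (((p.1 + p.2 : ℕ) : ℝ) / n) ≥ 0 := by
        apply hG0
        constructor
        · positivity
        · rw [div_le_iff₀ hn0]
          have : p.1 + p.2 ≤ 2 * n := by omega
          exact_mod_cast this
      positivity
    linarith
  -- Abel summation
  have h2 : ∑ m ∈ range (n + 1), (r b y m : ℝ) * G ((m : ℝ) / n) =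
      ∑ m ∈ range n, T b y m * (b * G (((m + 1 : ℕ) : ℝ) / n) - G ((m : ℝ) / n)) +
        T b y 0 * G 0 - T b y n * G 1 := by
    have e0 : ∑ m ∈ range (n + 1), (r b y m : ℝ) * G ((m : ℝ) / n) =
        ∑ m ∈ range n, (r b y (m + 1) : ℝ) * G (((m + 1 : ℕ) : ℝ) / n) := by
      rw [sum_range_succ', r_zero hy0 hy1]
      simp
    have e1 : ∀ m, (r b y (m + 1) : ℝ) = b * T b y m - T b y (m + 1) := by
      intro m
      have := T_succ hb hy0 hy1 m
      linarith
    have e2 : ∑ m ∈ range n, T b y (m + 1) * G (((m + 1 : ℕ) : ℝ) / n) =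
        ∑ m ∈ range n, T b y m * G ((m : ℝ) / n) + T b y n * G ((n : ℝ) / n) -
          T b y 0 * G (((0 : ℕ) : ℝ) / n) := by
      have h3 := sum_range_succ (fun m => T b y m * G ((m : ℝ) / n)) n
      have h4 := sum_range_succ' (fun m => T b y m * G ((m : ℝ) / n)) n
      linarith
    rw [e0]
    have e3 : ∑ m ∈ range n, (r b y (m + 1) : ℝ) * G (((m + 1 : ℕ) : ℝ) / n) =
        ∑ m ∈ range n, T b y m * (b * G (((m + 1 : ℕ) : ℝ) / n)) -
          ∑ m ∈ range n, T b y (m + 1) * G (((m + 1 : ℕ) : ℝ) / n) := by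
      rw [← sum_sub_distrib]
      refine sum_congr rfl fun m _ => ?_
      rw [e1]; ring
    rw [e3, e2, div_self hn0.ne']
    simp only [mul_sub, sum_sub_distrib, Nat.cast_zero, zero_div]
    ring
  -- termwise
  have h3 : ∀ m ∈ range n, ((b : ℝ) - 1) * (τ * G ((m : ℝ) / n) - M * d m) -
      b * L / n * (K b y n + 1) ≤
      T b y m * (b * G (((m + 1 : ℕ) : ℝ) / n) - G ((m : ℝ) / n)) := by
    intro m hm
    have hm' : m + 1 ≤ n := by have := mem_range.mp hm; omega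
    have hmR : (m : ℝ) + 1 ≤ n := by exact_mod_cast hm'
    have hm0 : (0 : ℝ) ≤ (m : ℝ) / n := by positivity
    have hm1 : ((m + 1 : ℕ) : ℝ) / n ≤ 1 := by
      rw [div_le_one hn0]; push_cast; exact hmR
    have hstep : ((m + 1 : ℕ) : ℝ) / n = (m : ℝ) / n + 1 / n := by push_cast; ring
    have hpos : (0 : ℝ) < 1 / n := by positivity
    have g1 := hG0 ((m : ℝ) / n) ⟨hm0, by linarith⟩
    have g2 := hGM ((m : ℝ) / n) ⟨hm0, by linarith⟩
    have g3 := hL (((m + 1 : ℕ) : ℝ) / n) ((m : ℝ) / n) ⟨by linarith, hm1⟩ ⟨hm0, by linarith⟩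
    rw [hstep, add_sub_cancel_left, abs_of_pos hpos, ← hstep] at g3
    have g4 := (abs_le.mp g3).1
    have t1 := T_pos hb hy0 hy1 hirr m
    have t2 : T b y m ≤ K b y n + 1 := by
      have a1 := T_le hb hy0 hy1 (b := b) m
      have a2 : (K b y m : ℝ) ≤ K b y n := by exact_mod_cast K_mono (b := b) (y := y) (by omega : m ≤ n)
      linarith
    have t3 := hd m
    have t4 := hd0 m
    set g := G ((m : ℝ) / n) with hg
    set g' := G (((m + 1 : ℕ) : ℝ) / n) with hg'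
    have s1 : ((b : ℝ) - 1) * g - b * (L * (1 / n)) ≤ b * g' - g := by
      have a1 : (b : ℝ) * (-(L * (1 / n))) ≤ b * (g' - g) :=
        mul_le_mul_of_nonneg_left g4 (by linarith)
      linarith
    have s2 : T b y m * (((b : ℝ) - 1) * g - b * (L * (1 / n))) ≤ T b y m * (b * g' - g) :=
      mul_le_mul_of_nonneg_left s1 t1.le
    have s3 : T b y m * (b * (L * (1 / n))) ≤ b * L / n * (K b y n + 1) := by
      have : 0 ≤ (b : ℝ) * (L * (1 / n)) := by positivity
      calc T b y m * (b * (L * (1 / n))) ≤ (K b y n + 1) * (b * (L * (1 / n))) :=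
            mul_le_mul_of_nonneg_right t2 this
        _ = _ := by ring
    have s4 : τ * g - M * d m ≤ T b y m * g := by
      have a1 : d m * g ≤ d m * M := mul_le_mul_of_nonneg_left g2 t4
      have a2 : (τ - d m) * g ≤ T b y m * g := mul_le_mul_of_nonneg_right t3 g1
      linarith
    have s5 : ((b : ℝ) - 1) * (τ * g - M * d m) ≤ ((b : ℝ) - 1) * (T b y m * g) :=
      mul_le_mul_of_nonneg_left s4 (by linarith)
    have s6 : T b y m * (((b : ℝ) - 1) * g - b * (L * (1 / n))) =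
        ((b : ℝ) - 1) * (T b y m * g) - T b y m * (b * (L * (1 / n))) := by ring
    linarith
  have h4 := sum_le_sum h3
  rw [sum_sub_distrib, ← mul_sum, sum_sub_distrib, ← mul_sum, ← mul_sum, sum_const, card_range,
    nsmul_eq_mul] at h4
  have h5 : (n : ℝ) * (b * L / n * (K b y n + 1)) = b * L * (K b y n + 1) := by field_simp
  have h6 := riemann hG hL hn
  have h7 : T b y n * G 1 ≤ M * (K b y n + 1) := by
    have a1 := T_le hb hy0 hy1 (b := b) n
    have a2 := T_pos hb hy0 hy1 hirr n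
    have a3 := hGM 1 (by norm_num)
    have a4 := hG0 1 (by norm_num)
    calc T b y n * G 1 ≤ (K b y n + 1) * M := mul_le_mul a1 a3 a4 (by positivity)
      _ = _ := by ring
  have h8 : 0 ≤ T b y 0 * G 0 := mul_nonneg (T_pos hb hy0 hy1 hirr 0).le (hG0 0 (by simp))
  have h9 : M * ∑ m ∈ range n, d m ≤ M * D := mul_le_mul_of_nonneg_left hD hM0
  have h10 : τ * (n * (∫ s in (0 : ℝ)..1, G s) - L) ≤ τ * ∑ m ∈ range n, G ((m : ℝ) / n) :=
    mul_le_mul_of_nonneg_left h6 hτ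
  have h11 : ((b : ℝ) - 1) * (τ * (n * (∫ s in (0 : ℝ)..1, G s) - L) - M * D) ≤
      ((b : ℝ) - 1) * (τ * ∑ m ∈ range n, G ((m : ℝ) / n) - M * ∑ m ∈ range n, d m) :=
    mul_le_mul_of_nonneg_left (by linarith) (by linarith)
  rw [h5] at h4
  rw [h2] at h1
  have h12 : ((b : ℝ) - 1) * (τ * (n * (∫ s in (0 : ℝ)..1, G s) - L) - M * D) =
      ((b : ℝ) - 1) * τ * (n * ∫ s in (0 : ℝ)..1, G s) - ((b : ℝ) - 1) * (τ * L + M * D) := by
    ring
  have h13 : (b * L + M) * ((K b y n : ℝ) + 1) = b * L * (K b y n + 1) + M * (K b y n + 1) := by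
    ring
  rw [h12] at h11
  rw [h13]
  linarith

end

end Pool.Agent.L7h56.AC
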