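import Pool.Agent.L7h56.AC.Elem

/-!
# The integrals of the trigonometric polynomials
-/

set_option autoImplicit false

open Finset Filter Topology

namespace Pool.Agent.L7h56.AC

/-- mean value of `cos (k ψ)` over the sums in `[0, 1]` -/
noncomputable def S (k : ℕ) : ℝ := ∫ s in (0 : ℝ)..1, Real.cos (k * ps s)

lemma sin_int (k : ℕ) : ∫ s in (0 : ℝ)..1, Real.sin (k * ps s) = 0 := by
  have h1 : ∫ s in (0 : ℝ)..1, Real.sin (k * ps (1 - s)) = ∫ s in (0 : ℝ)..1, Real.sin (k * ps s) := by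
    have := intervalIntegral.integral_comp_sub_left (fun s => Real.sin (k * ps s)) (1 : ℝ)
      (a := 0) (b := 1)
    simpa using this
  have h2 : (fun s : ℝ => Real.sin (k * ps (1 - s))) = fun s => -Real.sin (k * ps s) := by
    funext s
    rw [← Real.sin_neg]
    congr 1
    unfold ps; ring
  rw [h2, intervalIntegral.integral_neg] at h1
  linarith

lemma tp_int (l : List (ℤ × ℤ)) : ∀ k : ℕ,
    ∫ s in (0 : ℝ)..1, tp k l (ps s) = lin k l (fun j => (S j : ℂ)) := by
  induction l with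
  | nil => intro k; simp [tp, lin]
  | cons c l ih =>
    intro k
    simp only [tp, lin, Complex.ofReal_re, Complex.ofReal_im, mul_zero, add_zero]
    have hc : Continuous fun s : ℝ => Real.cos (k * ps s) := by unfold ps; fun_prop
    have hs : Continuous fun s : ℝ => Real.sin (k * ps s) := by unfold ps; fun_prop
    have ht : Continuous fun s : ℝ => tp (k + 1) l (ps s) :=
      (tp_cont l (k + 1)).comp (by unfold ps; fun_prop)
    have A1 := intervalIntegral.integral_add (a := 0) (b := 1) (μ := MeasureTheory.volume)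
      (f := fun s : ℝ => (c.1 : ℝ) * Real.cos (k * ps s) + c.2 * Real.sin (k * ps s))
      (g := fun s : ℝ => tp (k + 1) l (ps s))
      (by apply Continuous.intervalIntegrable; fun_prop) (ht.intervalIntegrable _ _)
    have A2 := intervalIntegral.integral_add (a := 0) (b := 1) (μ := MeasureTheory.volume)
      (f := fun s : ℝ => (c.1 : ℝ) * Real.cos (k * ps s))
      (g := fun s : ℝ => (c.2 : ℝ) * Real.sin (k * ps s))
      (by apply Continuous.intervalIntegrable; fun_prop)
      (by apply Continuous.intervalIntegrable; fun_prop)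
    rw [A1, A2, intervalIntegral.integral_const_mul,
      intervalIntegral.integral_const_mul, sin_int, ih]
    unfold S
    ring

lemma S_zero : S 0 = 1 := by unfold S; simp

lemma S_eq (k : ℕ) (hk : 0 < k) : S k = Real.sin (k * (Real.pi / 4)) / (k * (Real.pi / 4)) := by
  have hk0 : (0 : ℝ) < k := by exact_mod_cast hk
  have hpi := Real.pi_pos
  have hd : ∀ s ∈ Set.uIcc (0 : ℝ) 1, HasDerivAt
      (fun s : ℝ => Real.sin (k * ps s) / (k * (Real.pi / 2))) (Real.cos (k * ps s)) s := by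
    intro s _
    have h1 : HasDerivAt (fun s : ℝ => k * ps s) (k * (Real.pi / 2 * 1)) s := by
      unfold ps
      exact (((hasDerivAt_id s).sub_const (1 / 2)).const_mul (Real.pi / 2)).const_mul (k : ℝ)
    have h2 := (h1.sin).div_const (k * (Real.pi / 2))
    have h3 : (k : ℝ) * (Real.pi / 2) ≠ 0 := by positivity
    have e : Real.cos (k * ps s) * (k * (Real.pi / 2 * 1)) / (k * (Real.pi / 2)) =
        Real.cos (k * ps s) := by
      rw [mul_one, mul_div_assoc, div_self h3, mul_one]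
    rw [e] at h2
    exact h2
  have hc : Continuous fun s : ℝ => Real.cos (k * ps s) := by unfold ps; fun_prop
  unfold S
  rw [intervalIntegral.integral_eq_sub_of_hasDerivAt hd (hc.intervalIntegrable _ _)]
  have e1 : (k : ℝ) * ps 1 = k * (Real.pi / 4) := by unfold ps; ring
  have e0 : (k : ℝ) * ps 0 = -(k * (Real.pi / 4)) := by unfold ps; ring
  rw [e1, e0, Real.sin_neg]
  field_simp
  ring

lemma S_two : S 2 = 2 / Real.pi := by
  rw [S_eq 2 (by norm_num)]
  push_cast
  have : (2 : ℝ) * (Real.pi / 4) = Real.pi / 2 := by ring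
  rw [this, Real.sin_pi_div_two]
  field_simp

lemma S_three : S 3 = 2 * Real.sqrt 2 / (3 * Real.pi) := by
  rw [S_eq 3 (by norm_num)]
  push_cast
  have : (3 : ℝ) * (Real.pi / 4) = Real.pi - Real.pi / 4 := by ring
  rw [this, Real.sin_pi_sub, Real.sin_pi_div_four]
  have hpi := Real.pi_pos
  have h2 : Real.pi - Real.pi / 4 = 3 * Real.pi / 4 := by ring
  rw [h2]
  field_simp
  ring

lemma S_four : S 4 = 0 := by
  rw [S_eq 4 (by norm_num)]
  push_cast
  have : (4 : ℝ) * (Real.pi / 4) = Real.pi := by ring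
  rw [this, Real.sin_pi, zero_div]

lemma S_six : S 6 = -(2 / (3 * Real.pi)) := by
  rw [S_eq 6 (by norm_num)]
  push_cast
  have : (6 : ℝ) * (Real.pi / 4) = Real.pi / 2 + Real.pi := by ring
  rw [this, Real.sin_add_pi, Real.sin_pi_div_two]
  have hpi := Real.pi_pos
  have h2 : Real.pi / 2 + Real.pi = 3 * Real.pi / 2 := by ring
  rw [h2]
  field_simp

lemma S_eight : S 8 = 0 := by
  rw [S_eq 8 (by norm_num)]
  push_cast
  have : (8 : ℝ) * (Real.pi / 4) = 2 * Real.pi := by ring
  rw [this, Real.sin_two_pi, zero_div]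

lemma S_ten : S 10 = 2 / (5 * Real.pi) := by
  rw [S_eq 10 (by norm_num)]
  push_cast
  have : (10 : ℝ) * (Real.pi / 4) = Real.pi / 2 + 2 * Real.pi := by ring
  rw [this, Real.sin_add_two_pi, Real.sin_pi_div_two]
  have hpi := Real.pi_pos
  have h2 : Real.pi / 2 + 2 * Real.pi = 5 * Real.pi / 2 := by ring
  rw [h2]
  field_simp

lemma S_twelve : S 12 = 0 := by
  rw [S_eq 12 (by norm_num)]
  push_cast
  have : (12 : ℝ) * (Real.pi / 4) = Real.pi + 2 * Real.pi := by ring
  rw [this, Real.sin_add_two_pi, Real.sin_pi, zero_div]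

/-! ### half-angle tangents -/

lemma half_tan {θ : ℝ} (h : Real.cos (θ / 2) ≠ 0) :
    (1 + Real.tan (θ / 2) ^ 2) * Real.cos θ = 1 - Real.tan (θ / 2) ^ 2 ∧
      (1 + Real.tan (θ / 2) ^ 2) * Real.sin θ = 2 * Real.tan (θ / 2) := by
  have e : θ = 2 * (θ / 2) := by ring
  set x := θ / 2 with hx
  rw [e, Real.cos_two_mul, Real.sin_two_mul, Real.tan_eq_sin_div_cos]
  have h1 := Real.sin_sq_add_cos_sq x
  constructor
  · field_simp
    nlinarith
  · field_simp
    linear_combination (Real.sin x) * h1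

lemma tan_pi8 : Real.tan (Real.pi / 8) ^ 2 + 2 * Real.tan (Real.pi / 8) - 1 = 0 ∧
    0 < Real.tan (Real.pi / 8) := by
  have hpi := Real.pi_pos
  have hpos : 0 < Real.tan (Real.pi / 8) := Real.tan_pos_of_pos_of_lt_pi_div_two (by linarith) (by linarith)
  have hc : 0 < Real.cos (Real.pi / 8) := Real.cos_pos_of_mem_Ioo ⟨by linarith, by linarith⟩
  refine ⟨?_, hpos⟩
  have e : Real.pi / 8 = (Real.pi / 4) / 2 := by ring
  have h := half_tan (θ := Real.pi / 4) (by rw [← e]; exact hc.ne')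
  rw [← e, Real.cos_pi_div_four, Real.sin_pi_div_four] at h
  obtain ⟨h1, h2⟩ := h
  have h3 : (1 + Real.tan (Real.pi / 8) ^ 2) * (Real.sqrt 2 / 2) =
    (1 + Real.tan (Real.pi / 8) ^ 2) * (Real.sqrt 2 / 2) := rfl
  linarith

lemma tan_half_eq {x : ℝ} (h0 : 0 < x) (h1 : x < Real.pi / 2) :
    Real.tan x * (1 - Real.tan (x / 2) ^ 2) = 2 * Real.tan (x / 2) ∧ 0 < Real.tan (x / 2) := by
  have hpi := Real.pi_pos
  have hc : 0 < Real.cos (x / 2) := Real.cos_pos_of_mem_Ioo ⟨by linarith, by linarith⟩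
  have hcx : 0 < Real.cos x := Real.cos_pos_of_mem_Ioo ⟨by linarith, by linarith⟩
  obtain ⟨h2, h3⟩ := half_tan (θ := x) hc.ne'
  refine ⟨?_, Real.tan_pos_of_pos_of_lt_pi_div_two (by linarith) (by linarith)⟩
  rw [← h2, ← h3]
  nth_rewrite 1 [Real.tan_eq_sin_div_cos]
  field_simp

lemma tan_pi8_lt : Real.tan (Real.pi / 8) ≤ 0.4143 := by
  obtain ⟨h1, h2⟩ := tan_pi8
  by_contra h
  push Not at h
  nlinarith

lemma tan_pi8_gt : 0.4142 ≤ Real.tan (Real.pi / 8) := by
  obtain ⟨h1, h2⟩ := tan_pi8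
  by_contra h
  push Not at h
  nlinarith

lemma tan_pi16_lt : Real.tan (Real.pi / 16) ≤ 0.2 := by
  have hpi := Real.pi_pos
  obtain ⟨h1, h2⟩ := tan_half_eq (x := Real.pi / 8) (by linarith) (by linarith)
  have e : Real.pi / 8 / 2 = Real.pi / 16 := by ring
  rw [e] at h1 h2
  have h3 := tan_pi8_lt
  have h4 := tan_pi8.2
  by_contra h
  push Not at h
  have h5 : 1 - Real.tan (Real.pi / 16) ^ 2 ≤ 0.96 := by nlinarith
  have h6 := mul_le_mul_of_nonneg_left h5 h4.le
  nlinarith

lemma tan_3pi8 : Real.tan (3 * Real.pi / 8) * Real.tan (Real.pi / 8) = 1 := by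
  have e : 3 * Real.pi / 8 = Real.pi / 2 - Real.pi / 8 := by ring
  rw [e, Real.tan_pi_div_two_sub]
  exact inv_mul_cancel₀ tan_pi8.2.ne'

lemma tan_3pi8_lt : Real.tan (3 * Real.pi / 8) < 2.415 := by
  have h1 := tan_3pi8
  have h2 := tan_pi8_gt
  by_contra h
  push Not at h
  nlinarith

lemma tan_3pi16_lt : Real.tan (3 * Real.pi / 16) < 0.67 := by
  have hpi := Real.pi_pos
  obtain ⟨h1, h2⟩ := tan_half_eq (x := 3 * Real.pi / 8) (by linarith) (by linarith)
  have e : 3 * Real.pi / 8 / 2 = 3 * Real.pi / 16 := by ring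
  rw [e] at h1 h2
  have h3 := tan_3pi8_lt
  have h4 : 0 < Real.tan (3 * Real.pi / 8) :=
    Real.tan_pos_of_pos_of_lt_pi_div_two (by linarith) (by linarith)
  by_contra h
  push Not at h
  have h5 : 1 - Real.tan (3 * Real.pi / 16) ^ 2 ≤ 0.5511 := by nlinarith
  have h6 : Real.tan (3 * Real.pi / 8) * (1 - Real.tan (3 * Real.pi / 16) ^ 2) ≤
      Real.tan (3 * Real.pi / 8) * 0.5511 := mul_le_mul_of_nonneg_left h5 h4.le
  nlinarith

/-- certified inequality on the arc of the positions -/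
theorem check_one {C : List (ℤ × ℤ)} {bs : List ℤ}
    (h : check C (-200 :: bs) 1000 = true) (hlast : (-200 :: bs).getLast (by simp) = 670)
    (t : ℝ) (ht : t ∈ Set.Icc (0 : ℝ) 1) : 0 ≤ tp 0 C (th t) := by
  have hpi := Real.pi_pos
  obtain ⟨ht0, ht1⟩ := ht
  have h1 : -(Real.pi / 16) ≤ th t / 2 := by unfold th; nlinarith
  have h2 : th t / 2 ≤ 3 * Real.pi / 16 := by unfold th; nlinarith
  have hc : 0 < Real.cos (th t / 2) := Real.cos_pos_of_mem_Ioo ⟨by linarith, by linarith⟩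
  obtain ⟨h3, h4⟩ := half_tan hc.ne'
  have h5 : Real.tan (-(Real.pi / 16)) ≤ Real.tan (th t / 2) :=
    Real.strictMonoOn_tan.monotoneOn ⟨by linarith, by linarith⟩ ⟨by linarith, by linarith⟩ h1
  have h6 : Real.tan (th t / 2) ≤ Real.tan (3 * Real.pi / 16) :=
    Real.strictMonoOn_tan.monotoneOn ⟨by linarith, by linarith⟩ ⟨by linarith, by linarith⟩ h2
  rw [Real.tan_neg] at h5
  have h7 := tan_pi16_lt
  have h8 := tan_3pi16_lt
  refine check_sound C (-200) bs 1000 (by norm_num) h (th t) (Real.tan (th t / 2)) h3 h4 ?_ ?_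
  · push_cast; linarith
  · rw [hlast]; push_cast; linarith

/-- certified inequality on the arc of the sums -/
theorem check_two {C : List (ℤ × ℤ)} {bs : List ℤ}
    (h : check C (-4143 :: bs) 10000 = true) (hlast : (-4143 :: bs).getLast (by simp) = 24150)
    (s : ℝ) (hs : s ∈ Set.Icc (0 : ℝ) 2) : 0 ≤ tp 0 C (ps s) := by
  have hpi := Real.pi_pos
  obtain ⟨hs0, hs1⟩ := hs
  have h1 : -(Real.pi / 8) ≤ ps s / 2 := by unfold ps; nlinarith
  have h2 : ps s / 2 ≤ 3 * Real.pi / 8 := by unfold ps; nlinarith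
  have hc : 0 < Real.cos (ps s / 2) := Real.cos_pos_of_mem_Ioo ⟨by linarith, by linarith⟩
  obtain ⟨h3, h4⟩ := half_tan hc.ne'
  have h5 : Real.tan (-(Real.pi / 8)) ≤ Real.tan (ps s / 2) :=
    Real.strictMonoOn_tan.monotoneOn ⟨by linarith, by linarith⟩ ⟨by linarith, by linarith⟩ h1
  have h6 : Real.tan (ps s / 2) ≤ Real.tan (3 * Real.pi / 8) :=
    Real.strictMonoOn_tan.monotoneOn ⟨by linarith, by linarith⟩ ⟨by linarith, by linarith⟩ h2
  rw [Real.tan_neg] at h5
  have h7 := tan_pi8_lt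
  have h8 := tan_3pi8_lt
  refine check_sound C (-4143) bs 10000 (by norm_num) h (ps s) (Real.tan (ps s / 2)) h3 h4 ?_ ?_
  · push_cast; linarith
  · rw [hlast]; push_cast; linarith

end Pool.Agent.L7h56.AC
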