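import Mathlib

/-!
# Certified lower bounds for trigonometric polynomials on an arc

`check C bs N` verifies by integer arithmetic that the trigonometric polynomial
`∑ (p_k cos (k θ) + q_k sin (k θ))` with the coefficient list `C` is nonnegative for all `θ` with
`tan (θ / 2)` between the first and the last of the numbers `b / N`, `b ∈ bs`.
-/

set_option autoImplicit false

namespace Pool.Agent.L7h56.AC

/-! ### polynomials as lists of integers -/

/-- value of a polynomial -/
noncomputable def ev : List ℤ → ℝ → ℝ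
  | [], _ => 0
  | c :: l, x => c + x * ev l x

/-- sum -/
def padd : List ℤ → List ℤ → List ℤ
  | [], m => m
  | a :: l, [] => a :: l
  | a :: l, b :: m => (a + b) :: padd l m

/-- scalar multiple -/
def psm (c : ℤ) : List ℤ → List ℤ
  | [] => []
  | a :: l => (c * a) :: psm c l

/-- product -/
def pmul : List ℤ → List ℤ → List ℤ
  | [], _ => []
  | a :: l, m => padd (psm a m) (0 :: pmul l m)

lemma ev_padd (l m : List ℤ) (x : ℝ) : ev (padd l m) x = ev l x + ev m x := by
  induction l generalizing m with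
  | nil => simp [padd, ev]
  | cons a l ih =>
    cases m with
    | nil => simp [padd, ev]
    | cons b m => simp only [padd, ev, ih]; push_cast; ring

lemma ev_psm (c : ℤ) (l : List ℤ) (x : ℝ) : ev (psm c l) x = c * ev l x := by
  induction l with
  | nil => simp [psm, ev]
  | cons a l ih => simp only [psm, ev, ih]; push_cast; ring

lemma ev_pmul (l m : List ℤ) (x : ℝ) : ev (pmul l m) x = ev l x * ev m x := by
  induction l with
  | nil => simp [pmul, ev]
  | cons a l ih => simp only [pmul, ev, ev_padd, ev_psm, ih]; push_cast; ring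

/-- homogeneous substitution -/
def hom (X Y : List ℤ) : List ℤ → List ℤ × List ℤ
  | [] => ([], [1])
  | c :: l =>
    (padd (psm c (hom X Y l).2) (pmul X (hom X Y l).1), pmul Y (hom X Y l).2)

lemma ev_hom (X Y l : List ℤ) (z : ℝ) (hy : ev Y z ≠ 0) :
    ev (hom X Y l).1 z * ev Y z = ev Y z ^ l.length * ev l (ev X z / ev Y z) ∧
      ev (hom X Y l).2 z = ev Y z ^ l.length := by
  induction l with
  | nil => simp [hom, ev]
  | cons c l ih =>
    obtain ⟨h1, h2⟩ := ih
    constructor
    · simp only [hom, ev, ev_padd, ev_psm, ev_pmul, h2, List.length_cons, pow_succ]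
      have e : ev X z * ev (hom X Y l).1 z * ev Y z =
          ev X z * (ev Y z ^ l.length * ev l (ev X z / ev Y z)) := by rw [← h1]; ring
      rw [add_mul, e]
      field_simp
    · simp only [hom, ev_pmul, h2, List.length_cons, pow_succ]
      ring

/-- all coefficients are nonnegative -/
def nn : List ℤ → Bool
  | [] => true
  | a :: l => decide (0 ≤ a) && nn l

lemma ev_nonneg (l : List ℤ) (h : nn l = true) (z : ℝ) (hz : 0 ≤ z) : 0 ≤ ev l z := by
  induction l with
  | nil => simp [ev]
  | cons a l ih =>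
    simp only [nn, Bool.and_eq_true, decide_eq_true_eq] at h
    have h1 : (0 : ℝ) ≤ a := by exact_mod_cast h.1
    have h2 := ih h.2
    simp only [ev]
    positivity

/-- nonnegativity on the intervals between consecutive break points -/
def chk (l : List ℤ) (N : ℤ) : List ℤ → Bool
  | [] => true
  | [_] => true
  | u :: v :: bs => nn (hom [u, v] [N, N] l).1 && chk l N (v :: bs)

lemma chk_pair (l : List ℤ) (N u v : ℤ) (hN : 0 < N) (h : nn (hom [u, v] [N, N] l).1 = true)
    (t : ℝ) (h1 : (u : ℝ) ≤ t * N) (h2 : t * N < v) : 0 ≤ ev l t := by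
  have hNR : (0 : ℝ) < N := by exact_mod_cast hN
  set z : ℝ := (t * N - u) / (v - t * N) with hz
  have hvt : 0 < (v : ℝ) - t * N := by linarith
  have hz0 : 0 ≤ z := div_nonneg (by linarith) hvt.le
  have hY : ev [N, N] z = N * (1 + z) := by simp only [ev]; ring
  have hX : ev [u, v] z = u + v * z := by simp only [ev]; ring
  have hY0 : 0 < ev [N, N] z := by rw [hY]; positivity
  have hq : ev [u, v] z / ev [N, N] z = t := by
    have hz' : z * (v - t * N) = t * N - u := by rw [hz]; field_simp
    have hp : (N : ℝ) * (1 + z) ≠ 0 := by positivity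
    rw [hX, hY, div_eq_iff hp]
    linear_combination hz'
  obtain ⟨h3, -⟩ := ev_hom [u, v] [N, N] l z hY0.ne'
  rw [hq] at h3
  have h4 := ev_nonneg _ h z hz0
  have h5 : 0 ≤ ev [N, N] z ^ l.length * ev l t := by rw [← h3]; positivity
  have h6 : 0 < ev [N, N] z ^ l.length := by positivity
  exact nonneg_of_mul_nonneg_right h5 h6 |> fun h => h

lemma chk_sound (l : List ℤ) (N : ℤ) (hN : 0 < N) : ∀ (bs : List ℤ) (u : ℤ),
    chk l N (u :: bs) = true → ∀ t : ℝ, (u : ℝ) ≤ t * N → t * N < ((u :: bs).getLast (by simp) : ℤ) →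
      0 ≤ ev l t := by
  intro bs
  induction bs with
  | nil =>
    intro u _ t h1 h2
    simp only [List.getLast_singleton] at h2
    exact absurd h1 (by linarith)
  | cons v bs ih =>
    intro u h t h1 h2
    simp only [chk, Bool.and_eq_true] at h
    by_cases h3 : t * N < v
    · exact chk_pair l N u v hN h.1 t h1 h3
    · push Not at h3
      refine ih v h.2 t h3 ?_
      simpa using h2

/-! ### trigonometric polynomials -/

/-- `(1 + i t) ^ (2 k)`, real and imaginary parts -/
def cs : ℕ → List ℤ × List ℤ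
  | 0 => ([1], [])
  | k + 1 => (padd (pmul [1, 0, -1] (cs k).1) (psm (-1) (pmul [0, 2] (cs k).2)),
      padd (pmul [0, 2] (cs k).1) (pmul [1, 0, -1] (cs k).2))

lemma ev_cs (θ t : ℝ) (hc : (1 + t ^ 2) * Real.cos θ = 1 - t ^ 2)
    (hs : (1 + t ^ 2) * Real.sin θ = 2 * t) (k : ℕ) :
    ev (cs k).1 t = (1 + t ^ 2) ^ k * Real.cos (k * θ) ∧
      ev (cs k).2 t = (1 + t ^ 2) ^ k * Real.sin (k * θ) := by
  induction k with
  | zero => simp [cs, ev]
  | succ k ih =>
    obtain ⟨h1, h2⟩ := ih
    have e1 : ((k + 1 : ℕ) : ℝ) * θ = k * θ + θ := by push_cast; ring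
    have a1 : ev [1, 0, -1] t = 1 - t ^ 2 := by simp only [ev]; push_cast; ring
    have a2 : ev [0, 2] t = 2 * t := by simp only [ev]; push_cast; ring
    constructor
    · simp only [cs, ev_padd, ev_pmul, ev_psm, h1, h2, e1, Real.cos_add, a1, a2]
      rw [← hc, ← hs]
      push_cast
      ring
    · simp only [cs, ev_padd, ev_pmul, h1, h2, e1, Real.sin_add, a1, a2]
      rw [← hc, ← hs]
      ring

/-- the trigonometric polynomial with frequencies from `k` on -/
noncomputable def tp : ℕ → List (ℤ × ℤ) → ℝ → ℝ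
  | _, [], _ => 0
  | k, c :: l, θ => c.1 * Real.cos (k * θ) + c.2 * Real.sin (k * θ) + tp (k + 1) l θ

/-- its numerator -/
def num : ℕ → List (ℤ × ℤ) → List ℤ × List ℤ
  | _, [] => ([], [1])
  | k, c :: l =>
    (padd (pmul (padd (psm c.1 (cs k).1) (psm c.2 (cs k).2)) (num (k + 1) l).2) (num (k + 1) l).1,
      pmul [1, 0, 1] (num (k + 1) l).2)

lemma ev_num (θ t : ℝ) (hc : (1 + t ^ 2) * Real.cos θ = 1 - t ^ 2)
    (hs : (1 + t ^ 2) * Real.sin θ = 2 * t) (l : List (ℤ × ℤ)) : ∀ k : ℕ,
    ev (num k l).1 t * (1 + t ^ 2) = (1 + t ^ 2) ^ (k + l.length) * tp k l θ ∧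
      ev (num k l).2 t = (1 + t ^ 2) ^ l.length := by
  induction l with
  | nil => intro k; simp [num, ev, tp]
  | cons c l ih =>
    intro k
    obtain ⟨h1, h2⟩ := ih (k + 1)
    obtain ⟨h3, h4⟩ := ev_cs θ t hc hs k
    have a1 : ev [1, 0, 1] t = 1 + t ^ 2 := by simp only [ev]; push_cast; ring
    constructor
    · simp only [num, tp, ev_padd, ev_pmul, ev_psm, h2, h3, h4, List.length_cons]
      rw [add_mul, h1]
      ring
    · simp only [num, ev_pmul, h2, a1, List.length_cons]
      ring

/-- the checker -/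
def check (C : List (ℤ × ℤ)) (bs : List ℤ) (N : ℤ) : Bool := chk (num 0 C).1 N bs

theorem check_sound (C : List (ℤ × ℤ)) (u : ℤ) (bs : List ℤ) (N : ℤ) (hN : 0 < N)
    (h : check C (u :: bs) N = true) (θ t : ℝ) (hc : (1 + t ^ 2) * Real.cos θ = 1 - t ^ 2)
    (hs : (1 + t ^ 2) * Real.sin θ = 2 * t) (h1 : (u : ℝ) ≤ t * N)
    (h2 : t * N < ((u :: bs).getLast (by simp) : ℤ)) : 0 ≤ tp 0 C θ := by
  have h3 := chk_sound _ N hN bs u h t h1 h2
  obtain ⟨h4, -⟩ := ev_num θ t hc hs C 0
  have hd : 0 < 1 + t ^ 2 := by positivity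
  have h5 : 0 ≤ (1 + t ^ 2) ^ (0 + C.length) * tp 0 C θ := by rw [← h4]; positivity
  exact nonneg_of_mul_nonneg_right h5 (by positivity)

end Pool.Agent.L7h56.AC
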