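import Pool.Agent.L7h56.AC.Fin
import Pool.Agent.L7h56.AC.Poly

/-!
# The limit of the exponential sums over the digits
-/

set_option autoImplicit false
set_option linter.unusedSectionVars false

open Finset Filter Topology

namespace Pool.Agent.L7h56.AC

open Pool.Agent.H394R2.Ones Pool.Agent.H820R3.DG

/-- the angle of a position -/
noncomputable def th (t : ℝ) : ℝ := Real.pi / 2 * (t - 1 / 4)

/-- the angle of a sum of two positions -/
noncomputable def ps (s : ℝ) : ℝ := Real.pi / 2 * (s - 1 / 2)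

/-- the linear functional given by a list of coefficients -/
noncomputable def lin : ℕ → List (ℤ × ℤ) → (ℕ → ℂ) → ℝ
  | _, [], _ => 0
  | k, c :: l, a => c.1 * (a k).re + c.2 * (a k).im + lin (k + 1) l a

lemma lin_cont (l : List (ℤ × ℤ)) : ∀ k, Continuous (lin k l) := by
  induction l with
  | nil => intro k; simp only [lin]; exact continuous_const
  | cons c l ih =>
    intro k
    have h1 := ih (k + 1)
    have h2 : Continuous fun a : ℕ → ℂ => (a k).re := Complex.continuous_re.comp (continuous_apply k)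
    have h3 : Continuous fun a : ℕ → ℂ => (a k).im := Complex.continuous_im.comp (continuous_apply k)
    simp only [lin]
    exact ((continuous_const.mul h2).add (continuous_const.mul h3)).add h1

lemma lin_sum {ι : Type} (s : Finset ι) (w : ι → ℝ) (a : ι → ℕ → ℂ) (l : List (ℤ × ℤ)) :
    ∀ k, lin k l (fun j => ∑ i ∈ s, (w i : ℂ) * a i j) = ∑ i ∈ s, w i * lin k l (a i) := by
  induction l with
  | nil => intro k; simp [lin]
  | cons c l ih =>
    intro k
    simp only [lin, ih, Complex.re_sum, Complex.im_sum, Complex.re_ofReal_mul,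
      Complex.im_ofReal_mul, mul_sum, mul_add, sum_add_distrib]
    congr 1
    congr 1 <;> refine sum_congr rfl fun i _ => by ring

lemma lin_smul (w : ℝ) (a : ℕ → ℂ) (l : List (ℤ × ℤ)) (k : ℕ) :
    lin k l (fun j => (w : ℂ) * a j) = w * lin k l a := by
  have h := lin_sum ({()} : Finset Unit) (fun _ => w) (fun _ => a) l k
  simpa using h

lemma lin_exp (θ : ℝ) (l : List (ℤ × ℤ)) :
    ∀ k, lin k l (fun j => Complex.exp (((j * θ : ℝ) : ℂ) * Complex.I)) = tp k l θ := by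
  induction l with
  | nil => intro k; simp [lin, tp]
  | cons c l ih =>
    intro k
    simp only [lin, tp, ih, Complex.exp_ofReal_mul_I_re, Complex.exp_ofReal_mul_I_im]

lemma tp_bound (l : List (ℤ × ℤ)) : ∀ k, ∃ M : ℝ, 0 ≤ M ∧ ∀ θ, |tp k l θ| ≤ M := by
  induction l with
  | nil => intro k; exact ⟨0, le_rfl, fun θ => by simp [tp]⟩
  | cons c l ih =>
    intro k
    obtain ⟨M, hM0, hM⟩ := ih (k + 1)
    refine ⟨|(c.1 : ℝ)| + |(c.2 : ℝ)| + M, by positivity, fun θ => ?_⟩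
    simp only [tp]
    have h1 : |(c.1 : ℝ) * Real.cos (k * θ)| ≤ |(c.1 : ℝ)| := by
      rw [abs_mul]
      exact mul_le_of_le_one_right (abs_nonneg _) (Real.abs_cos_le_one _)
    have h2 : |(c.2 : ℝ) * Real.sin (k * θ)| ≤ |(c.2 : ℝ)| := by
      rw [abs_mul]
      exact mul_le_of_le_one_right (abs_nonneg _) (Real.abs_sin_le_one _)
    calc _ ≤ |(c.1 : ℝ) * Real.cos (k * θ) + (c.2 : ℝ) * Real.sin (k * θ)| + |tp (k + 1) l θ| :=
          abs_add_le _ _
      _ ≤ |(c.1 : ℝ) * Real.cos (k * θ)| + |(c.2 : ℝ) * Real.sin (k * θ)| + |tp (k + 1) l θ| := by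
          gcongr; exact abs_add_le _ _
      _ ≤ _ := by have := hM θ; gcongr

lemma tp_lip (l : List (ℤ × ℤ)) :
    ∀ k, ∃ M : ℝ, 0 ≤ M ∧ ∀ θ θ', |tp k l θ - tp k l θ'| ≤ M * |θ - θ'| := by
  induction l with
  | nil => intro k; exact ⟨0, le_rfl, fun θ θ' => by simp [tp]⟩
  | cons c l ih =>
    intro k
    obtain ⟨M, hM0, hM⟩ := ih (k + 1)
    refine ⟨|(c.1 : ℝ)| * k + |(c.2 : ℝ)| * k + M, by positivity, fun θ θ' => ?_⟩
    simp only [tp]
    have hk : |(k : ℝ) * θ - k * θ'| = k * |θ - θ'| := by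
      rw [← mul_sub, abs_mul, abs_of_nonneg (Nat.cast_nonneg k)]
    have h1 : |(c.1 : ℝ) * Real.cos (k * θ) - c.1 * Real.cos (k * θ')| ≤
        |(c.1 : ℝ)| * k * |θ - θ'| := by
      rw [← mul_sub, abs_mul, mul_assoc, ← hk]
      exact mul_le_mul_of_nonneg_left (Real.abs_cos_sub_cos_le _ _) (abs_nonneg _)
    have h2 : |(c.2 : ℝ) * Real.sin (k * θ) - c.2 * Real.sin (k * θ')| ≤
        |(c.2 : ℝ)| * k * |θ - θ'| := by
      rw [← mul_sub, abs_mul, mul_assoc, ← hk]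
      exact mul_le_mul_of_nonneg_left (Real.abs_sin_sub_sin_le _ _) (abs_nonneg _)
    have h3 := hM θ θ'
    have e : c.1 * Real.cos (k * θ) + c.2 * Real.sin (k * θ) + tp (k + 1) l θ -
        (c.1 * Real.cos (k * θ') + c.2 * Real.sin (k * θ') + tp (k + 1) l θ') =
        (c.1 * Real.cos (k * θ) - c.1 * Real.cos (k * θ')) +
        (c.2 * Real.sin (k * θ) - c.2 * Real.sin (k * θ')) +
        (tp (k + 1) l θ - tp (k + 1) l θ') := by ring
    rw [e]
    calc _ ≤ |(c.1 : ℝ) * Real.cos (k * θ) - c.1 * Real.cos (k * θ')| +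
          |(c.2 : ℝ) * Real.sin (k * θ) - c.2 * Real.sin (k * θ')| +
          |tp (k + 1) l θ - tp (k + 1) l θ'| :=
          (abs_add_le _ _).trans (by gcongr; exact abs_add_le _ _)
      _ ≤ _ := by linarith

lemma tp_cont (l : List (ℤ × ℤ)) : ∀ k, Continuous (tp k l) := by
  induction l with
  | nil => intro k; simp only [tp]; exact continuous_const
  | cons c l ih =>
    intro k
    have h1 := ih (k + 1)
    simp only [tp]
    fun_prop

/-- the normalised exponential sums -/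
noncomputable def aN (b : ℕ) (y : ℝ) (n : ℕ) (k : ℕ) : ℂ :=
  ∑ i ∈ range (n + 1), (((x b y i : ℝ) / K b y n : ℝ) : ℂ) *
    Complex.exp (((k * th ((i : ℝ) / n) : ℝ) : ℂ) * Complex.I)

lemma lin_aN (b : ℕ) (y : ℝ) (n : ℕ) (l : List (ℤ × ℤ)) :
    lin 0 l (aN b y n) = ∑ i ∈ range (n + 1), (x b y i : ℝ) / K b y n * tp 0 l (th ((i : ℝ) / n)) := by
  unfold aN
  rw [lin_sum (range (n + 1)) (fun i => (x b y i : ℝ) / K b y n)
    (fun i j => Complex.exp (((j * th ((i : ℝ) / n) : ℝ) : ℂ) * Complex.I))]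
  refine sum_congr rfl fun i _ => ?_
  rw [lin_exp]

lemma th_add {n : ℕ} (i j : ℕ) :
    th ((i : ℝ) / n) + th ((j : ℝ) / n) = ps (((i + j : ℕ) : ℝ) / n) := by
  unfold th ps
  push_cast
  ring

lemma lin_aN_sq (b : ℕ) (y : ℝ) (n : ℕ) (l : List (ℤ × ℤ)) :
    lin 0 l (fun k => aN b y n k ^ 2) = PS b y n (fun s => tp 0 l (ps s)) / (K b y n : ℝ) ^ 2 := by
  have h1 : (fun k => aN b y n k ^ 2) = fun k : ℕ => ∑ p ∈ range (n + 1) ×ˢ range (n + 1),
      (((x b y p.1 : ℝ) / K b y n * ((x b y p.2 : ℝ) / K b y n) : ℝ) : ℂ) *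
      Complex.exp (((k * ps (((p.1 + p.2 : ℕ) : ℝ) / n) : ℝ) : ℂ) * Complex.I) := by
    funext k
    unfold aN
    rw [sq, sum_mul_sum, sum_product]
    refine sum_congr rfl fun i _ => sum_congr rfl fun j _ => ?_
    rw [← th_add, mul_add, Complex.ofReal_add, add_mul, Complex.exp_add]
    generalize Complex.exp (((k * th ((i : ℝ) / n) : ℝ) : ℂ) * Complex.I) = e1
    generalize Complex.exp (((k * th ((j : ℝ) / n) : ℝ) : ℂ) * Complex.I) = e2
    push_cast
    ring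
  rw [h1, lin_sum (range (n + 1) ×ˢ range (n + 1))
    (fun p => (x b y p.1 : ℝ) / K b y n * ((x b y p.2 : ℝ) / K b y n))
    (fun p j => Complex.exp (((j * ps (((p.1 + p.2 : ℕ) : ℝ) / n) : ℝ) : ℂ) * Complex.I))]
  unfold PS
  rw [sum_div]
  refine sum_congr rfl fun p _ => ?_
  rw [lin_exp]
  ring

lemma aN_norm (b : ℕ) (y : ℝ) (n k : ℕ) : ‖aN b y n k‖ ≤ 1 := by
  unfold aN
  refine (norm_sum_le _ _).trans ?_
  have h1 : ∀ i ∈ range (n + 1), ‖(((x b y i : ℝ) / K b y n : ℝ) : ℂ) *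
      Complex.exp (((k * th ((i : ℝ) / n) : ℝ) : ℂ) * Complex.I)‖ = (x b y i : ℝ) / K b y n := by
    intro i _
    rw [norm_mul, Complex.norm_exp_ofReal_mul_I, mul_one, Complex.norm_real, Real.norm_eq_abs,
      abs_of_nonneg (by positivity)]
  rw [sum_congr rfl h1, ← sum_div]
  have h2 : (∑ i ∈ range (n + 1), (x b y i : ℝ)) = K b y n := by unfold K; push_cast; rfl
  rw [h2]
  exact div_self_le_one _

lemma aN_zero (b : ℕ) (y : ℝ) (n : ℕ) (h : 0 < K b y n) : aN b y n 0 = 1 := by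
  unfold aN
  have h1 : ∀ i ∈ range (n + 1), (((x b y i : ℝ) / K b y n : ℝ) : ℂ) *
      Complex.exp ((((0 : ℕ) * th ((i : ℝ) / n) : ℝ) : ℂ) * Complex.I) =
      (((x b y i : ℝ) / K b y n : ℝ) : ℂ) := by
    intro i _
    simp
  rw [sum_congr rfl h1, ← Complex.ofReal_sum, ← sum_div]
  have h2 : (∑ i ∈ range (n + 1), (x b y i : ℝ)) = K b y n := by unfold K; push_cast; rfl
  have h3 : (K b y n : ℝ) ≠ 0 := by exact_mod_cast h.ne'
  rw [h2, div_self h3]
  simp

/-- The properties of a limit of the normalised exponential sums. -/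
structure LimObj (lam : ℝ) (a : ℕ → ℂ) : Prop where
  zero : a 0 = 1
  one : ∀ l : List (ℤ × ℤ), (∀ t ∈ Set.Icc (0 : ℝ) 1, 0 ≤ tp 0 l (th t)) → 0 ≤ lin 0 l a
  two : ∀ l : List (ℤ × ℤ), (∀ s ∈ Set.Icc (0 : ℝ) 2, 0 ≤ tp 0 l (ps s)) →
    lam * (∫ s in (0 : ℝ)..1, tp 0 l (ps s)) ≤ lin 0 l (fun k => a k ^ 2)

lemma dd_sum {b : ℕ} {y : ℝ} (hb : 2 ≤ b) (hy0 : 0 < y) (hy1 : y < 1) (hirr : Irrational y)
    (halg : IsAlgebraic ℚ y) {τ : ℝ} (hτ0 : 0 ≤ τ) {B : ℝ} (hB0 : 0 ≤ B)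
    (δ : ℝ) (hδ0 : 0 < δ) (hδ1 : δ ≤ 1 / 4) :
    ∃ C : ℝ, 0 ≤ C ∧ ∀ n : ℕ, ∑ m ∈ range n, dd b y τ B m ≤ C * (K b y n + 1) + τ * δ * n := by
  obtain ⟨C1, hC10, hC1⟩ := bad_count hb hy0 hy1 halg hirr B δ hδ0 hδ1
  refine ⟨B + 2 * τ + τ * C1 + τ, by positivity, fun n => ?_⟩
  have hK : (0 : ℝ) ≤ K b y n := Nat.cast_nonneg _
  unfold dd
  rw [sum_add_distrib, sum_add_distrib, sum_add_distrib, ← mul_sum, ← mul_sum, ← mul_sum,
    sum_add_distrib]
  have h1 := ep_sum (b := b) hb hy0 hy1 n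
  have h2 : (∑ m ∈ range n, (x b y m : ℝ)) ≤ K b y n := by
    unfold K
    exact_mod_cast sum_le_sum_of_subset (range_mono (Nat.le_succ n))
  have h3 : (∑ m ∈ range n, (exc b y m : ℝ)) ≤ K b y n := by
    exact_mod_cast exc_sum b y n
  have h4 : (∑ m ∈ range n, (if T b y m ≤ B * ep b y m then (1 : ℝ) else 0)) ≤
      C1 * (K b y n + 1) + δ * n := by
    have h5 := hC1 n
    rw [card_filter] at h5
    push_cast at h5
    exact h5
  have h5 := few_sum 0 n τ hτ0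
  rw [Nat.cast_zero, zero_add, mul_one] at h5
  have h6 := mul_le_mul_of_nonneg_left h1 hB0
  have h7 := mul_le_mul_of_nonneg_left (add_le_add h2 h3) hτ0
  have h8 := mul_le_mul_of_nonneg_left h4 hτ0
  have h9 : 0 ≤ τ * K b y n := mul_nonneg hτ0 hK
  have e : (B + 2 * τ + τ * C1 + τ) * ((K b y n : ℝ) + 1) =
      B * (K b y n + 1) + 2 * (τ * K b y n) + 2 * τ +
      τ * (C1 * (K b y n + 1)) + τ * K b y n + τ := by ring
  rw [e]
  linarith

end Pool.Agent.L7h56.AC
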