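import Pool.Agent.L7h56.AC.Num
import Pool.Agent.L7h56.AC.Ex

/-!
# Digit sums of quadratic irrationals: the constant `37 / 25`
-/

set_option autoImplicit false

open Finset Filter Topology

namespace Pool.Agent.L7h56.AC

open Pool.Agent.H394R2.Ones Pool.Agent.H820R3.DG

set_option maxRecDepth 100000 in
lemma check_sign : check [(1, 0), (0, 0), (100, 100)] [-200, 670] 1000 = true := by
  decide +kernel

lemma S3c : S 3 ≤ 0.30011 := by
  have h1 := Real.pi_gt_d6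
  have hpi := Real.pi_pos
  have h4 : Real.sqrt 2 ≤ 1.41422 := by rw [Real.sqrt_le_left (by norm_num)]; norm_num
  rw [S_three, div_le_iff₀ (by positivity)]
  nlinarith

theorem no_lim (a : ℕ → ℂ) : ¬ LimObj lam0 a := by
  intro h
  have hlam : lam0 ≤ 1 := by unfold lam0; norm_num
  have e4 := near_zero h hlam (k := 4) (by norm_num) S_four
  have e8 := near_zero h hlam (k := 8) (by norm_num) S_eight
  have e12 := near_zero h hlam (k := 12) (by norm_num) S_twelve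
  have s2 := S2b
  have s3 := S3b
  have s6 := S6b
  have s10 := S10b
  have hs := h.one _ (check_one check_sign rfl)
  simp only [lin, zero_add, Nat.reduceAdd, h.zero] at hs
  norm_num at hs
  -- frequency 2
  have d2 : ((a 2).re - (381 / 500 : ℝ)) ^ 2 + (a 2).im ^ 2 ≤ (599 / 10000 : ℝ) ^ 2 := by
    rcases near_pos h hlam (k := 2) (by norm_num) (w := 381 / 500) (r := 599 / 10000)
      (δ := 65 / 100000) (by norm_num)
      (by unfold lam0; rw [abs_le]; constructor <;> linarith [s2.1, s2.2])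
      (by unfold lam0; norm_num) (by unfold lam0; norm_num) with h1 | h1
    · exact h1
    · exfalso
      have h2 : |(a 2).re + 381 / 500| ≤ 599 / 10000 := by
        apply abs_le_of_sq_le_sq _ (by norm_num)
        nlinarith [sq_nonneg (a 2).im]
      have h3 : |(a 2).im| ≤ 599 / 10000 := by
        apply abs_le_of_sq_le_sq _ (by norm_num)
        nlinarith [sq_nonneg ((a 2).re + 381 / 500)]
      have h4 := (abs_le.mp h2).2
      have h5 := (abs_le.mp h3).2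
      linarith
  -- frequency 3
  have d3 : ((a 3).re - (523 / 1000 : ℝ)) ^ 2 + (a 3).im ^ 2 ≤ (229 / 2500 : ℝ) ^ 2 := by
    rcases near_pos h hlam (k := 3) (by norm_num) (w := 523 / 1000) (r := 229 / 2500)
      (δ := 495 / 1000000) (by norm_num)
      (by unfold lam0; rw [abs_le]; constructor <;> linarith [s3.1, S3c])
      (by unfold lam0; norm_num) (by unfold lam0; norm_num) with h1 | h1
    · exact h1
    · exact (caseA h d2 h1).elim
  -- frequency 6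
  have d6 : (a 6).re ^ 2 + ((a 6).im + (11 / 25 : ℝ)) ^ 2 ≤ (1137 / 10000 : ℝ) ^ 2 := by
    rcases near_neg h hlam (k := 6) (by norm_num) (w := 11 / 25) (r := 1137 / 10000)
      (δ := 18 / 100000) (by norm_num)
      (by unfold lam0; rw [abs_le]; constructor <;> linarith [s6.1, s6.2])
      (by unfold lam0; norm_num) (by unfold lam0; norm_num) with h1 | h1
    · exact (caseB h d2 e4 h1 e8).elim
    · exact h1
  -- frequency 10
  rcases near_pos h hlam (k := 10) (by norm_num) (w := 341 / 1000) (r := 849 / 5000)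
      (δ := 4 / 100000) (by norm_num)
      (by unfold lam0; rw [abs_le]; constructor <;> linarith [s10.1, s10.2])
      (by unfold lam0; norm_num) (by unfold lam0; norm_num) with h1 | h1
  · exact caseC h d2 d3 e4 d6 e8 h1 e12
  · exact caseD h d2 d3 e4 d6 e8 h1 e12

/-- digit sums of quadratic irrationals in `(0, 1)` -/
theorem quad_main148 {b : ℕ} {y : ℝ} (hb : 2 ≤ b) (hy0 : 0 < y) (hy1 : y < 1)
    (hirr : Irrational y) {A B C : ℤ} (hA : 0 < A) (hq : (A : ℝ) * y ^ 2 + B * y + C = 0) :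
    ∃ n0 : ℕ, ∀ n : ℕ, n0 ≤ n →
      37 / 25 * Real.sqrt (((b : ℝ) - 1) * (Int.gcd b (2 * A) : ℕ) / (2 * A)) * Real.sqrt n ≤
        K b y n := by
  have hbR : (2 : ℝ) ≤ b := by exact_mod_cast hb
  have hAR : (1 : ℝ) ≤ A := by exact_mod_cast hA
  have h1 : ¬ ∃ᶠ n : ℕ in atTop,
      lam0 * (K b y n : ℝ) ^ 2 ≤ ((b : ℝ) - 1) * (((Int.gcd b (2 * A) : ℕ) : ℝ) / A) * n := by
    intro hf
    obtain ⟨a, ha⟩ := lim_exists hb hy0 hy1 hirr hA hq lam0 hf
    exact no_lim a ha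
  rw [not_frequently] at h1
  obtain ⟨n0, hn0⟩ := eventually_atTop.mp h1
  refine ⟨n0, fun n hn => ?_⟩
  have h2 := hn0 n hn
  push Not at h2
  set g : ℝ := ((Int.gcd b (2 * A) : ℕ) : ℝ) with hg
  have hg0 : 0 ≤ g := Nat.cast_nonneg _
  have hK : (0 : ℝ) ≤ K b y n := Nat.cast_nonneg _
  have hb1 : 0 ≤ (b : ℝ) - 1 := by linarith
  apply le_of_sq_le_sq _ hK
  rw [mul_pow, mul_pow, Real.sq_sqrt (by positivity), Real.sq_sqrt (Nat.cast_nonneg _)]
  unfold lam0 at h2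
  have e : (37 / 25 : ℝ) ^ 2 * (((b : ℝ) - 1) * g / (2 * A)) * n =
      1369 / 1250 * (((b : ℝ) - 1) * (g / A) * n) := by
    field_simp
    ring
  rw [e]
  linarith

/-- digit sums of real quadratic irrationals -/
theorem quad_real148 {b : ℕ} (hb : 2 ≤ b) {A B C : ℤ} (hA : 0 < A) {ξ : ℝ} (hirr : Irrational ξ)
    (hq : (A : ℝ) * ξ ^ 2 + B * ξ + C = 0) :
    ∃ n0 : ℕ, ∀ n : ℕ, n0 ≤ n →
      37 / 25 * Real.sqrt (((b : ℝ) - 1) * (Int.gcd b (2 * A) : ℕ) / (2 * A)) * Real.sqrt n ≤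
        ((∑ k ∈ range n, ⌊ξ * (b : ℝ) ^ (k + 1)⌋ % (b : ℤ) : ℤ) : ℝ) := by
  set y : ℝ := Int.fract ξ with hy
  have hξ : ξ = ⌊ξ⌋ + y := (Int.floor_add_fract ξ).symm
  have hyirr : Irrational y := by
    have : y = ξ - (⌊ξ⌋ : ℤ) := rfl
    rw [this]
    exact hirr.sub_intCast _
  have hy0 : 0 < y := lt_of_le_of_ne (Int.fract_nonneg ξ) (Ne.symm hyirr.ne_zero)
  have hy1 : y < 1 := Int.fract_lt_one ξ
  have hq' : (A : ℝ) * y ^ 2 + ((B + 2 * A * ⌊ξ⌋ : ℤ) : ℝ) * y +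
      ((C + B * ⌊ξ⌋ + A * ⌊ξ⌋ ^ 2 : ℤ) : ℝ) = 0 := by
    have h1 : (A : ℝ) * (⌊ξ⌋ + y) ^ 2 + B * (⌊ξ⌋ + y) + C = 0 := by rw [← hξ]; exact hq
    push_cast
    linarith
  obtain ⟨n0, hn0⟩ := quad_main148 hb hy0 hy1 hyirr hA hq'
  refine ⟨n0, fun n hn => (hn0 n hn).trans (le_of_eq ?_)⟩
  have hdig : ∀ k : ℕ, ⌊ξ * (b : ℝ) ^ (k + 1)⌋ % (b : ℤ) = (x b y (k + 1) : ℤ) := by
    intro k
    have h1 : ξ * (b : ℝ) ^ (k + 1) = ((⌊ξ⌋ * (b : ℤ) ^ (k + 1) : ℤ) : ℝ) +
        y * (b : ℝ) ^ (k + 1) := by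
      nth_rewrite 1 [hξ]
      push_cast
      ring
    rw [h1, Int.floor_intCast_add]
    unfold x Pool.Agent.H394R2.Ones.B
    push_cast
    rw [Int.natCast_floor_eq_floor (by positivity)]
    rw [show ⌊ξ⌋ * (b : ℤ) ^ (k + 1) + ⌊y * (b : ℝ) ^ (k + 1)⌋ =
      ⌊y * (b : ℝ) ^ (k + 1)⌋ + (b : ℤ) * (⌊ξ⌋ * (b : ℤ) ^ k) by ring, Int.add_mul_emod_self_left]
  simp only [hdig]
  unfold K
  rw [sum_range_succ']
  rw [x_zero hy0 hy1, add_zero]
  push_cast
  rfl

end Pool.Agent.L7h56.AC
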