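import Pool.Agent.L7h56.AC.Int
import Pool.Agent.L7h56.AC.Data

/-!
# There is no limit object with `lam = 1250 / 1369`
-/

set_option autoImplicit false

open Finset Filter Topology

namespace Pool.Agent.L7h56.AC

/-- a list with one frequency -/
def sgl (k : ℕ) (N p q : ℤ) : List (ℤ × ℤ) := (N, 0) :: (List.replicate (k - 1) (0, 0) ++ [(p, q)])

lemma lin_rep (m : ℕ) (l : List (ℤ × ℤ)) (a : ℕ → ℂ) :
    ∀ k, lin k (List.replicate m (0, 0) ++ l) a = lin (k + m) l a := by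
  induction m with
  | zero => intro k; simp
  | succ m ih =>
    intro k
    simp only [List.replicate_succ, List.cons_append, lin, Int.cast_zero, zero_mul, zero_add]
    rw [ih]
    congr 1
    ring

lemma lin_sgl {k : ℕ} (hk : 1 ≤ k) (N p q : ℤ) (a : ℕ → ℂ) :
    lin 0 (sgl k N p q) a = N * (a 0).re + (p * (a k).re + q * (a k).im) := by
  unfold sgl
  simp only [lin, lin_rep, Int.cast_zero, zero_mul, add_zero, zero_add]
  rw [Nat.add_sub_cancel' hk]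

lemma sgl_nonneg {k : ℕ} (hk : 1 ≤ k) {N p q : ℤ} (hN : 0 ≤ N) (h : p ^ 2 + q ^ 2 ≤ N ^ 2)
    (θ : ℝ) : 0 ≤ tp 0 (sgl k N p q) θ := by
  rw [← lin_exp, lin_sgl hk]
  have hNR : (0 : ℝ) ≤ N := by exact_mod_cast hN
  have hR : (p : ℝ) ^ 2 + (q : ℝ) ^ 2 ≤ (N : ℝ) ^ 2 := by exact_mod_cast h
  rw [Complex.exp_ofReal_mul_I_re, Complex.exp_ofReal_mul_I_re, Complex.exp_ofReal_mul_I_im]
  simp only [Nat.cast_zero, zero_mul, Real.cos_zero, mul_one]
  set c := Real.cos (k * θ)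
  set s := Real.sin (k * θ)
  have h1 : c ^ 2 + s ^ 2 = 1 := by rw [add_comm]; exact Real.sin_sq_add_cos_sq _
  have h2 : (p * c + q * s) ^ 2 ≤ (N : ℝ) ^ 2 := by
    nlinarith [sq_nonneg ((p : ℝ) * s - q * c)]
  have h3 := abs_le_of_sq_le_sq' h2 hNR
  linarith [h3.1]

section
variable {a : ℕ → ℂ} {lam : ℝ} (h : LimObj lam a)

include h in
lemma zeta_le (h1 : lam ≤ 1) {k : ℕ} (hk : 1 ≤ k) :
    ((a k).re ^ 2 - (a k).im ^ 2 - lam * S k) ^ 2 + (2 * (a k).re * (a k).im) ^ 2 ≤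
      (1 - lam) ^ 2 := by
  apply norm_le_of_int (by linarith)
  intro p q N hN hpq
  have h2 := h.two (sgl k N p q) (fun s _ => sgl_nonneg hk hN hpq _)
  rw [tp_int, lin_sgl hk, lin_sgl hk, h.zero, S_zero] at h2
  have e1 : (a k ^ 2).re = (a k).re ^ 2 - (a k).im ^ 2 := by rw [sq, Complex.mul_re]; ring
  have e2 : (a k ^ 2).im = 2 * (a k).re * (a k).im := by rw [sq, Complex.mul_im]; ring
  rw [e1, e2] at h2
  simp only [Complex.ofReal_re, Complex.ofReal_im, mul_zero, add_zero, one_pow, Complex.one_re,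
    mul_one, Complex.ofReal_one] at h2
  linarith

include h in
/-- a frequency whose mean value vanishes -/
lemma near_zero (h1 : lam ≤ 1) {k : ℕ} (hk : 1 ≤ k) (hS : S k = 0) :
    (a k).re ^ 2 + (a k).im ^ 2 ≤ 1 - lam := by
  have h2 := zeta_le h h1 hk
  rw [hS, mul_zero, sub_zero] at h2
  have h3 : ((a k).re ^ 2 + (a k).im ^ 2) ^ 2 ≤ (1 - lam) ^ 2 := by
    calc _ = ((a k).re ^ 2 - (a k).im ^ 2) ^ 2 + (2 * (a k).re * (a k).im) ^ 2 := by ring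
      _ ≤ _ := h2
  exact (le_abs_self _).trans (abs_le_of_sq_le_sq h3 (by linarith))

include h in
/-- a frequency with positive mean value -/
lemma near_pos (h1 : lam ≤ 1) {k : ℕ} (hk : 1 ≤ k) {w r δ : ℝ} (hw : 0 < w)
    (hδ : |lam * S k - w ^ 2| ≤ δ) (h3 : 1 - lam + δ ≤ r * (2 * w - r))
    (h4 : 1 - lam + δ < w ^ 2) :
    ((a k).re - w) ^ 2 + (a k).im ^ 2 ≤ r ^ 2 ∨ ((a k).re + w) ^ 2 + (a k).im ^ 2 ≤ r ^ 2 := by
  have h2 := zeta_le h h1 hk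
  have h5 := shift_center (v := w ^ 2) (δ := δ) (by linarith) h2 hδ
  have hδ0 : 0 ≤ δ := (abs_nonneg _).trans hδ
  rcases le_total 0 (a k).re with hA | hA
  · left
    exact disc hw (by linarith) h3 h4 hA h5
  · right
    have h6 := disc (A := -(a k).re) (B := -(a k).im) hw (by linarith) h3 h4 (by linarith)
      (by nlinarith)
    nlinarith

include h in
/-- a frequency with negative mean value -/
lemma near_neg (h1 : lam ≤ 1) {k : ℕ} (hk : 1 ≤ k) {w r δ : ℝ} (hw : 0 < w)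
    (hδ : |lam * S k + w ^ 2| ≤ δ) (h3 : 1 - lam + δ ≤ r * (2 * w - r))
    (h4 : 1 - lam + δ < w ^ 2) :
    (a k).re ^ 2 + ((a k).im - w) ^ 2 ≤ r ^ 2 ∨ (a k).re ^ 2 + ((a k).im + w) ^ 2 ≤ r ^ 2 := by
  have h2 := zeta_le h h1 hk
  have h5 := shift_center (v := -w ^ 2) (δ := δ) (by linarith) h2 (by rw [sub_neg_eq_add]; exact hδ)
  have hδ0 : 0 ≤ δ := (abs_nonneg _).trans hδ
  rcases le_total 0 (a k).im with hA | hA
  · left
    have h6 := disc (A := (a k).im) (B := -(a k).re) hw (by linarith) h3 h4 hA (by nlinarith)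
    nlinarith
  · right
    have h6 := disc (A := -(a k).im) (B := (a k).re) hw (by linarith) h3 h4 (by linarith)
      (by nlinarith)
    nlinarith

end

lemma sq_re (z : ℂ) : (z ^ 2).re = z.re ^ 2 - z.im ^ 2 := by rw [sq, Complex.mul_re]; ring
lemma sq_im (z : ℂ) : (z ^ 2).im = 2 * z.re * z.im := by rw [sq, Complex.mul_im]; ring

/-- the bound for `lam` -/
noncomputable def lam0 : ℝ := 1250 / 1369

lemma S2b : 0.63661 ≤ S 2 ∧ S 2 ≤ 0.63663 := by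
  have h1 := Real.pi_gt_d6
  have h2 := Real.pi_lt_d6
  have hpi := Real.pi_pos
  rw [S_two]
  constructor
  · rw [le_div_iff₀ hpi]; nlinarith
  · rw [div_le_iff₀ hpi]; nlinarith

lemma S3b : 0.3001 ≤ S 3 ∧ S 3 ≤ 0.30012 := by
  have h1 := Real.pi_gt_d6
  have h2 := Real.pi_lt_d6
  have hpi := Real.pi_pos
  have h3 : (1.41421 : ℝ) ≤ Real.sqrt 2 := by apply Real.le_sqrt_of_sq_le; norm_num
  have h4 : Real.sqrt 2 ≤ 1.41422 := by rw [Real.sqrt_le_left (by norm_num)]; norm_num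
  rw [S_three]
  constructor
  · rw [le_div_iff₀ (by positivity)]; nlinarith
  · rw [div_le_iff₀ (by positivity)]; nlinarith

lemma S6b : -0.21221 ≤ S 6 ∧ S 6 ≤ -0.2122 := by
  have h1 := Real.pi_gt_d6
  have h2 := Real.pi_lt_d6
  have hpi := Real.pi_pos
  rw [S_six]
  constructor
  · rw [neg_le_neg_iff, div_le_iff₀ (by positivity)]; nlinarith
  · rw [neg_le_neg_iff, le_div_iff₀ (by positivity)]; nlinarith

lemma S10b : 0.12732 ≤ S 10 ∧ S 10 ≤ 0.12733 := by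
  have h1 := Real.pi_gt_d6
  have h2 := Real.pi_lt_d6
  have hpi := Real.pi_pos
  rw [S_ten]
  constructor
  · rw [le_div_iff₀ (by positivity)]; nlinarith
  · rw [div_le_iff₀ (by positivity)]; nlinarith

lemma caseA {a : ℕ → ℂ} (h : LimObj lam0 a)
    (h2 : ((a 2).re - (381 / 500 : ℝ)) ^ 2 + (a 2).im ^ 2 ≤ (599 / 10000 : ℝ) ^ 2)
    (h3 : ((a 3).re + (523 / 1000 : ℝ)) ^ 2 + (a 3).im ^ 2 ≤ (229 / 2500 : ℝ) ^ 2) : False := by
  have H1 := h.one hA (check_one check_hA rfl)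
  have H2 := h.two gA (check_two check_gA rfl)
  rw [tp_int] at H2
  simp only [hA, lin, zero_add, Nat.reduceAdd, h.zero] at H1
  simp only [gA, lin, zero_add, Nat.reduceAdd, h.zero, one_pow, sq_re, sq_im, Complex.ofReal_re, Complex.ofReal_im] at H2
  norm_num at H1 H2
  have k2 := qf (P := (167 / 500 : ℝ)) (Q := (-12 / 125 : ℝ)) (μ := (869 / 2500 : ℝ)) (by norm_num) (by norm_num) h2
  have k3 := qf (P := (111 / 250 : ℝ)) (Q := (-29 / 500 : ℝ)) (μ := (2239 / 5000 : ℝ)) (by norm_num) (by norm_num) h3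
  have s2 := S2b
  have s3 := S3b
  have s6 := S6b
  have s10 := S10b
  simp only [S_zero] at H2
  unfold lam0 at *
  nlinarith

lemma caseB {a : ℕ → ℂ} (h : LimObj lam0 a)
    (h2 : ((a 2).re - (381 / 500 : ℝ)) ^ 2 + (a 2).im ^ 2 ≤ (599 / 10000 : ℝ) ^ 2)
    (h4 : (a 4).re ^ 2 + (a 4).im ^ 2 ≤ 1 - lam0)
    (h6 : (a 6).re ^ 2 + ((a 6).im - (11 / 25 : ℝ)) ^ 2 ≤ (1137 / 10000 : ℝ) ^ 2)
    (h8 : (a 8).re ^ 2 + (a 8).im ^ 2 ≤ 1 - lam0) : False := by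
  have H1 := h.one hB (check_one check_hB rfl)
  have H2 := h.two gB (check_two check_gB rfl)
  rw [tp_int] at H2
  simp only [hB, lin, zero_add, Nat.reduceAdd, h.zero] at H1
  simp only [gB, lin, zero_add, Nat.reduceAdd, h.zero, one_pow, sq_re, sq_im, Complex.ofReal_re, Complex.ofReal_im] at H2
  norm_num at H1 H2
  have k2 := qf (P := (9 / 125 : ℝ)) (Q := (-173 / 1000 : ℝ)) (μ := (937 / 5000 : ℝ)) (by norm_num) (by norm_num) h2
  have k4 := zb (P := (-183 / 1000 : ℝ)) (Q := (-53 / 500 : ℝ)) (p := (49 / 200 : ℝ)) (q := (33 / 500 : ℝ)) (μ := (2191 / 10000 : ℝ)) (c0 := (3739 / 100000 : ℝ))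
    (by norm_num) (by norm_num) (by norm_num) (by norm_num) h4
  have k6 := qf (P := (-407 / 1000 : ℝ)) (Q := (3 / 200 : ℝ)) (μ := (4073 / 10000 : ℝ)) (by norm_num) (by norm_num) h6
  have k8 := zb (P := (3 / 50 : ℝ)) (Q := (16 / 125 : ℝ)) (p := (-23 / 250 : ℝ)) (q := (29 / 200 : ℝ)) (μ := (3 / 20 : ℝ)) (c0 := (2531 / 100000 : ℝ))
    (by norm_num) (by norm_num) (by norm_num) (by norm_num) h8
  have s2 := S2b
  have s3 := S3b
  have s6 := S6b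
  have s10 := S10b
  simp only [S_zero, S_four, S_eight] at H2
  unfold lam0 at *
  nlinarith

lemma caseC {a : ℕ → ℂ} (h : LimObj lam0 a)
    (h2 : ((a 2).re - (381 / 500 : ℝ)) ^ 2 + (a 2).im ^ 2 ≤ (599 / 10000 : ℝ) ^ 2)
    (h3 : ((a 3).re - (523 / 1000 : ℝ)) ^ 2 + (a 3).im ^ 2 ≤ (229 / 2500 : ℝ) ^ 2)
    (h4 : (a 4).re ^ 2 + (a 4).im ^ 2 ≤ 1 - lam0)
    (h6 : (a 6).re ^ 2 + ((a 6).im + (11 / 25 : ℝ)) ^ 2 ≤ (1137 / 10000 : ℝ) ^ 2)
    (h8 : (a 8).re ^ 2 + (a 8).im ^ 2 ≤ 1 - lam0)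
    (h10 : ((a 10).re - (341 / 1000 : ℝ)) ^ 2 + (a 10).im ^ 2 ≤ (849 / 5000 : ℝ) ^ 2)
    (h12 : (a 12).re ^ 2 + (a 12).im ^ 2 ≤ 1 - lam0) : False := by
  have H1 := h.one hC (check_one check_hC rfl)
  have H2 := h.two gC (check_two check_gC rfl)
  rw [tp_int] at H2
  simp only [hC, lin, zero_add, Nat.reduceAdd, h.zero] at H1
  simp only [gC, lin, zero_add, Nat.reduceAdd, h.zero, one_pow, sq_re, sq_im, Complex.ofReal_re, Complex.ofReal_im] at H2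
  norm_num at H1 H2
  have k2 := qf (P := (3 / 250 : ℝ)) (Q := (-21 / 1000 : ℝ)) (μ := (121 / 5000 : ℝ)) (by norm_num) (by norm_num) h2
  have k3 := qf (P := (167 / 1000 : ℝ)) (Q := (11 / 500 : ℝ)) (μ := (337 / 2000 : ℝ)) (by norm_num) (by norm_num) h3
  have k4 := zb (P := (-141 / 1000 : ℝ)) (Q := (81 / 1000 : ℝ)) (p := (157 / 1000 : ℝ)) (q := (-21 / 500 : ℝ)) (μ := (163 / 1000 : ℝ)) (c0 := (2029 / 100000 : ℝ))
    (by norm_num) (by norm_num) (by norm_num) (by norm_num) h4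
  have k6 := qf (P := (-189 / 1000 : ℝ)) (Q := (-13 / 500 : ℝ)) (μ := (477 / 2500 : ℝ)) (by norm_num) (by norm_num) h6
  have k8 := zb (P := (59 / 500 : ℝ)) (Q := (167 / 1000 : ℝ)) (p := (57 / 500 : ℝ)) (q := (-11 / 50 : ℝ)) (μ := (1079 / 5000 : ℝ)) (c0 := (3653 / 100000 : ℝ))
    (by norm_num) (by norm_num) (by norm_num) (by norm_num) h8
  have k10 := qf (P := (247 / 1000 : ℝ)) (Q := (-14 / 125 : ℝ)) (μ := (2713 / 10000 : ℝ)) (by norm_num) (by norm_num) h10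
  have k12 := zb (P := (-43 / 1000 : ℝ)) (Q := (-43 / 1000 : ℝ)) (p := (29 / 500 : ℝ)) (q := (3 / 125 : ℝ)) (μ := (609 / 10000 : ℝ)) (c0 := (81 / 10000 : ℝ))
    (by norm_num) (by norm_num) (by norm_num) (by norm_num) h12
  have s2 := S2b
  have s3 := S3b
  have s6 := S6b
  have s10 := S10b
  simp only [S_zero, S_four, S_eight, S_twelve] at H2
  unfold lam0 at *
  nlinarith

lemma caseD {a : ℕ → ℂ} (h : LimObj lam0 a)
    (h2 : ((a 2).re - (381 / 500 : ℝ)) ^ 2 + (a 2).im ^ 2 ≤ (599 / 10000 : ℝ) ^ 2)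
    (h3 : ((a 3).re - (523 / 1000 : ℝ)) ^ 2 + (a 3).im ^ 2 ≤ (229 / 2500 : ℝ) ^ 2)
    (h4 : (a 4).re ^ 2 + (a 4).im ^ 2 ≤ 1 - lam0)
    (h6 : (a 6).re ^ 2 + ((a 6).im + (11 / 25 : ℝ)) ^ 2 ≤ (1137 / 10000 : ℝ) ^ 2)
    (h8 : (a 8).re ^ 2 + (a 8).im ^ 2 ≤ 1 - lam0)
    (h10 : ((a 10).re + (341 / 1000 : ℝ)) ^ 2 + (a 10).im ^ 2 ≤ (849 / 5000 : ℝ) ^ 2)
    (h12 : (a 12).re ^ 2 + (a 12).im ^ 2 ≤ 1 - lam0) : False := by
  have H1 := h.one hD (check_one check_hD rfl)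
  have H2 := h.two gD (check_two check_gD rfl)
  rw [tp_int] at H2
  simp only [hD, lin, zero_add, Nat.reduceAdd, h.zero] at H1
  simp only [gD, lin, zero_add, Nat.reduceAdd, h.zero, one_pow, sq_re, sq_im, Complex.ofReal_re, Complex.ofReal_im] at H2
  norm_num at H1 H2
  have k2 := qf (P := (31 / 200 : ℝ)) (Q := (-31 / 200 : ℝ)) (μ := (2193 / 10000 : ℝ)) (by norm_num) (by norm_num) h2
  have k3 := qf (P := (41 / 500 : ℝ)) (Q := (197 / 1000 : ℝ)) (μ := (1067 / 5000 : ℝ)) (by norm_num) (by norm_num) h3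
  have k4 := zb (P := (-83 / 500 : ℝ)) (Q := (49 / 500 : ℝ)) (p := (187 / 1000 : ℝ)) (q := (-51 / 1000 : ℝ)) (μ := (1931 / 10000 : ℝ)) (c0 := (487 / 20000 : ℝ))
    (by norm_num) (by norm_num) (by norm_num) (by norm_num) h4
  have k6 := qf (P := (-63 / 500 : ℝ)) (Q := (-33 / 1000 : ℝ)) (μ := (1303 / 10000 : ℝ)) (by norm_num) (by norm_num) h6
  have k8 := zb (P := (0 : ℝ)) (Q := (-59 / 1000 : ℝ)) (p := (-41 / 1000 : ℝ)) (q := (-41 / 1000 : ℝ)) (μ := (591 / 10000 : ℝ)) (c0 := (89 / 12500 : ℝ))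
    (by norm_num) (by norm_num) (by norm_num) (by norm_num) h8
  have k10 := qf (P := (3 / 40 : ℝ)) (Q := (-1 / 100 : ℝ)) (μ := (757 / 10000 : ℝ)) (by norm_num) (by norm_num) h10
  have k12 := zb (P := (-2 / 125 : ℝ)) (Q := (2 / 125 : ℝ)) (p := (-21 / 1000 : ℝ)) (q := (9 / 1000 : ℝ)) (μ := (47 / 2000 : ℝ)) (c0 := (143 / 50000 : ℝ))
    (by norm_num) (by norm_num) (by norm_num) (by norm_num) h12
  have s2 := S2b
  have s3 := S3b
  have s6 := S6b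
  have s10 := S10b
  simp only [S_zero, S_four, S_twelve] at H2
  unfold lam0 at *
  nlinarith

end Pool.Agent.L7h56.AC
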